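import Mathlib

/-!
# Local nilpotence, part 1: prime-like quotients

`Γ` a group, `ρ : Γ →* A` a homomorphism into a ring.  `dp ρ l` is the product of the
`ρ g - 1`, `g ∈ l`.  `Nil ρ` says that all such products of some fixed length vanish.
If `Γ` is finitely generated and `ρ` is not `Nil`, there is a ring `B`, a homomorphism
`σ : Γ →* B` spanning `B`, satisfying all the relations of `ρ`, not `Nil`, such that every
nonzero ideal of `B` contains a power of the augmentation ideal.
-/

namespace Pool.Agent.Work.MP_d7201b_al.LN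

universe u v

variable {Γ : Type u} [Group Γ] {A : Type v} [Ring A]

/-- product of the `ρ g - 1` -/
def dp (ρ : Γ →* A) (l : List Γ) : A := (l.map (fun g => ρ g - 1)).prod

@[simp] lemma dp_nil (ρ : Γ →* A) : dp ρ [] = 1 := rfl

@[simp] lemma dp_cons (ρ : Γ →* A) (g : Γ) (l : List Γ) :
    dp ρ (g :: l) = (ρ g - 1) * dp ρ l := by simp [dp]

lemma dp_append (ρ : Γ →* A) (l l' : List Γ) : dp ρ (l ++ l') = dp ρ l * dp ρ l' := by
  simp [dp]

/-- the augmentation ideal is nilpotent -/
def Nil (ρ : Γ →* A) : Prop := ∃ n, ∀ l : List Γ, l.length = n → dp ρ l = 0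

/-- ideal generated by `a` -/
def Idl (ρ : Γ →* A) (a : A) : AddSubgroup A :=
  AddSubgroup.closure {x | ∃ g h : Γ, x = ρ g * a * ρ h}

/-- every nonzero ideal contains a power of the augmentation ideal -/
def PrimeLike (ρ : Γ →* A) : Prop :=
  ∀ a : A, a ≠ 0 → ∃ n, ∀ l : List Γ, l.length = n → dp ρ l ∈ Idl ρ a

/-- the `n`-th power of the augmentation ideal -/
def D (ρ : Γ →* A) (n : ℕ) : AddSubgroup A :=
  AddSubgroup.closure {x | ∃ (g : Γ) (l : List Γ), l.length = n ∧ x = ρ g * dp ρ l}

lemma dp_mem_D (ρ : Γ →* A) (l : List Γ) : dp ρ l ∈ D ρ l.length :=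
  AddSubgroup.subset_closure ⟨1, l, rfl, by simp⟩

lemma D_mul_right (ρ : Γ →* A) (n : ℕ) {x : A} (hx : x ∈ D ρ n) (h : Γ) : x * ρ h ∈ D ρ n := by
  unfold D at hx
  induction hx using AddSubgroup.closure_induction with
  | mem x hx =>
    obtain ⟨g, l, hl, rfl⟩ := hx
    rcases List.eq_nil_or_concat l with rfl | ⟨l', k, rfl⟩
    · refine AddSubgroup.subset_closure ⟨g * h, [], hl, by simp⟩
    · have e : ρ g * dp ρ (l' ++ [k]) * ρ h
          = ρ g * dp ρ (l' ++ [k * h]) - ρ g * dp ρ (l' ++ [h]) := by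
        simp only [dp_append, dp_cons, dp_nil, map_mul]; noncomm_ring
      have e' : l'.concat k = l' ++ [k] := by simp
      rw [e'] at hl ⊢
      rw [e]
      refine AddSubgroup.sub_mem _ (AddSubgroup.subset_closure ⟨g, _, ?_, rfl⟩)
        (AddSubgroup.subset_closure ⟨g, _, ?_, rfl⟩) <;> simpa using hl
  | zero => simp
  | add x y _ _ hx hy => rw [add_mul]; exact AddSubgroup.add_mem _ hx hy
  | neg x _ hx => rw [neg_mul]; exact AddSubgroup.neg_mem _ hx

lemma D_mul_left (ρ : Γ →* A) (n : ℕ) {x : A} (hx : x ∈ D ρ n) (h : Γ) : ρ h * x ∈ D ρ n := by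
  unfold D at hx
  induction hx using AddSubgroup.closure_induction with
  | mem x hx =>
    obtain ⟨g, l, hl, rfl⟩ := hx
    exact AddSubgroup.subset_closure ⟨h * g, l, hl, by simp [mul_assoc]⟩
  | zero => simp
  | add x y _ _ hx hy => rw [mul_add]; exact AddSubgroup.add_mem _ hx hy
  | neg x _ hx => rw [mul_neg]; exact AddSubgroup.neg_mem _ hx

/-- The `n`-th power of the augmentation ideal is generated, as a left ideal, by the products
of `n` generators minus one. -/
lemma D_le (ρ : Γ →* A) (S : Set Γ) (hS : Submonoid.closure S = ⊤) (n : ℕ) :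
    D ρ n ≤ AddSubgroup.closure {x | ∃ (g : Γ) (l : List Γ), (∀ s ∈ l, s ∈ S) ∧
      l.length = n ∧ x = ρ g * dp ρ l} := by
  induction n with
  | zero =>
    unfold D
    refine (AddSubgroup.closure_le _).2 ?_
    rintro x ⟨g, l, hl, rfl⟩
    obtain rfl := List.eq_nil_of_length_eq_zero hl
    exact AddSubgroup.subset_closure ⟨g, [], by simp, rfl, rfl⟩
  | succ n ih =>
    have key : ∀ k : Γ, k ∈ Submonoid.closure S → ∀ y ∈ D ρ n, y * (ρ k - 1) ∈
        AddSubgroup.closure {x | ∃ (g : Γ) (l : List Γ), (∀ s ∈ l, s ∈ S) ∧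
          l.length = n + 1 ∧ x = ρ g * dp ρ l} := by
      intro k hk
      induction hk using Submonoid.closure_induction with
      | mem s hs =>
        intro y hy
        have hy' := ih hy
        clear hy
        induction hy' using AddSubgroup.closure_induction with
        | mem x hx =>
          obtain ⟨g, l, hlS, hl, rfl⟩ := hx
          refine AddSubgroup.subset_closure ⟨g, l ++ [s], ?_, by simp [hl], ?_⟩
          · intro t ht
            rcases List.mem_append.1 ht with h | h
            · exact hlS t h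
            · rw [List.mem_singleton] at h; rw [h]; exact hs
          · rw [dp_append]; simp [mul_assoc]
        | zero => simp
        | add x y _ _ hx hy => rw [add_mul]; exact AddSubgroup.add_mem _ hx hy
        | neg x _ hx => rw [neg_mul]; exact AddSubgroup.neg_mem _ hx
      | one => intro y _; simp
      | mul k1 k2 _ _ h1 h2 =>
        intro y hy
        have e : y * (ρ (k1 * k2) - 1) = (y * ρ k1) * (ρ k2 - 1) + y * (ρ k1 - 1) := by
          rw [map_mul]; noncomm_ring
        rw [e]
        exact AddSubgroup.add_mem _ (h2 _ (D_mul_right ρ n hy k1)) (h1 _ hy)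
    unfold D
    refine (AddSubgroup.closure_le _).2 ?_
    rintro x ⟨g, l, hl, rfl⟩
    rcases List.eq_nil_or_concat l with rfl | ⟨l', k, rfl⟩
    · simp at hl
    · have e' : l'.concat k = l' ++ [k] := by simp
      rw [e'] at hl ⊢
      rw [dp_append, ← mul_assoc, dp_cons, dp_nil, mul_one]
      refine key k (hS ▸ Submonoid.mem_top k) _ (AddSubgroup.subset_closure ⟨g, l', ?_, rfl⟩)
      simpa using hl

lemma nil_mono (ρ : Γ →* A) (I : TwoSidedIdeal A) (n m : ℕ) (hnm : n ≤ m)
    (h : ∀ l : List Γ, l.length = n → dp ρ l ∈ I) :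
    ∀ l : List Γ, l.length = m → dp ρ l ∈ I := by
  intro l hl
  have : l = l.take n ++ l.drop n := (List.take_append_drop n l).symm
  rw [this, dp_append]
  refine I.mul_mem_right _ _ (h _ ?_)
  rw [List.length_take]; omega

lemma lift_dp (σ : Γ →* A) (l : List Γ) :
    MonoidAlgebra.lift ℤ A Γ σ (dp (MonoidAlgebra.of ℤ Γ) l) = dp σ l := by
  induction l with
  | nil => simp
  | cons g l ih => rw [dp_cons, dp_cons, map_mul, ih]; simp

/-- Existence of a prime-like quotient. -/
theorem exists_primeLike [Group.FG Γ] (ρ : Γ →* A) (hn : ¬ Nil ρ) :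
    ∃ (B : Type u) (_ : Ring B) (σ : Γ →* B),
      (∀ x : MonoidAlgebra ℤ Γ, MonoidAlgebra.lift ℤ A Γ ρ x = 0 →
        MonoidAlgebra.lift ℤ B Γ σ x = 0) ∧
      AddSubgroup.closure (Set.range σ) = ⊤ ∧ ¬ Nil σ ∧ PrimeLike σ := by
  classical
  obtain ⟨S, hS⟩ : ∃ S : Finset Γ, Submonoid.closure (S : Set Γ) = ⊤ :=
    (Monoid.fg_def.1 (Group.fg_iff_monoid_fg.1 inferInstance)).imp fun S hS => hS
  set R := MonoidAlgebra ℤ Γ with hR
  let o : Γ →* R := MonoidAlgebra.of ℤ Γ
  let K : TwoSidedIdeal R := TwoSidedIdeal.ker (MonoidAlgebra.lift ℤ A Γ ρ)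
  -- membership of all products follows from the products of generators
  have hfg : ∀ (I : TwoSidedIdeal R) (n : ℕ),
      (∀ l : List Γ, (∀ s ∈ l, s ∈ (S : Set Γ)) → l.length = n → dp o l ∈ I) →
      ∀ l : List Γ, l.length = n → dp o l ∈ I := by
    intro I n h l hl
    have h1 := D_le o (S : Set Γ) hS n (hl ▸ dp_mem_D o l)
    refine AddSubgroup.closure_induction (p := fun x _ => x ∈ I) ?_ I.zero_mem
      (fun x y _ _ hx hy => I.add_mem hx hy) (fun x _ hx => I.neg_mem hx) h1
    rintro x ⟨g, l, hlS, hl, rfl⟩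
    exact I.mul_mem_left _ _ (h l hlS hl)
  let T : Set (TwoSidedIdeal R) := {I | K ≤ I ∧ ∀ n, ∃ l : List Γ, l.length = n ∧ dp o l ∉ I}
  have hKT : K ∈ T := by
    refine ⟨le_rfl, fun n => ?_⟩
    by_contra hcon
    push Not at hcon
    refine hn ⟨n, fun l hl => ?_⟩
    have := hcon l hl
    rw [TwoSidedIdeal.mem_ker] at this
    rw [← lift_dp]; exact this
  obtain ⟨M, hKM, hM⟩ := zorn_le_nonempty₀ T (by
    intro c hcT hc y hy
    let U : TwoSidedIdeal R := TwoSidedIdeal.mk' {x | ∃ I ∈ c, x ∈ I}
      ⟨y, hy, y.zero_mem⟩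
      (by
        rintro a b ⟨I, hI, ha⟩ ⟨J, hJ, hb⟩
        rcases hc.total hI hJ with h | h
        · exact ⟨J, hJ, J.add_mem (h ha) hb⟩
        · exact ⟨I, hI, I.add_mem ha (h hb)⟩)
      (by rintro a ⟨I, hI, ha⟩; exact ⟨I, hI, I.neg_mem ha⟩)
      (by rintro a b ⟨I, hI, hb⟩; exact ⟨I, hI, I.mul_mem_left _ _ hb⟩)
      (by rintro a b ⟨I, hI, ha⟩; exact ⟨I, hI, I.mul_mem_right _ _ ha⟩)
    have hU : ∀ x, x ∈ U ↔ ∃ I ∈ c, x ∈ I := fun x => TwoSidedIdeal.mem_mk' ..
    have hcU : ∀ z ∈ c, z ≤ U := fun z hz x hx => (hU x).2 ⟨z, hz, hx⟩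
    refine ⟨U, ⟨(hcT hy).1.trans (hcU y hy), fun n => ?_⟩, hcU⟩
    by_contra hcon
    push Not at hcon
    -- finitely many lists
    let F : Set (List Γ) := {l | (∀ s ∈ l, s ∈ (S : Set Γ)) ∧ l.length = n}
    have hF : F.Finite := by
      have : F = ((fun f : Fin n → S => List.ofFn (fun i => (f i : Γ))) '' Set.univ) := by
        ext l
        constructor
        · rintro ⟨h1, h2⟩
          subst h2
          refine ⟨fun i => ⟨l.get i, by simpa using h1 _ (List.get_mem l i)⟩, trivial, ?_⟩
          simp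
        · rintro ⟨f, -, rfl⟩
          refine ⟨?_, by simp⟩
          intro s hs
          rw [List.mem_ofFn] at hs
          obtain ⟨i, rfl⟩ := hs
          exact (f i).2
      rw [this]
      exact Set.finite_univ.image _
    have hex : ∃ I ∈ c, ∀ l ∈ F, dp o l ∈ I := by
      have hsub : ∀ F' : Finset (List Γ), (↑F' ⊆ F) → ∃ I ∈ c, ∀ l ∈ F', dp o l ∈ I := by
        intro F'
        induction F' using Finset.induction_on with
        | empty => intro _; exact ⟨y, hy, by simp⟩
        | insert l F' _ ih =>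
          intro hsub
          obtain ⟨I, hI, hI'⟩ := ih (fun x hx => hsub (by simp [Finset.mem_coe.1 hx]))
          obtain ⟨J, hJ, hJ'⟩ := (hU _).1 (hcon l (hsub (by simp)).2)
          rcases hc.total hI hJ with h | h
          · refine ⟨J, hJ, fun x hx => ?_⟩
            rcases Finset.mem_insert.1 hx with rfl | hx
            · exact hJ'
            · exact h (hI' x hx)
          · refine ⟨I, hI, fun x hx => ?_⟩
            rcases Finset.mem_insert.1 hx with rfl | hx
            · exact h hJ'
            · exact hI' x hx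
      obtain ⟨I, hI, hI'⟩ := hsub hF.toFinset (by simp)
      exact ⟨I, hI, fun l hl => hI' l (by simpa using hl)⟩
    obtain ⟨I, hI, hI'⟩ := hex
    obtain ⟨l, hl, hl'⟩ := (hcT hI).2 n
    exact hl' (hfg I n (fun l h1 h2 => hI' l ⟨h1, h2⟩) l hl)) K hKT
  have hMT : M ∈ T := hM.prop
  let q : R →+* M.ringCon.Quotient := M.ringCon.mk'
  have hq0 : ∀ x : R, q x = 0 ↔ x ∈ M := by
    intro x
    rw [TwoSidedIdeal.mem_iff]
    exact RingCon.eq M.ringCon
  let σ : Γ →* M.ringCon.Quotient := (q : R →* M.ringCon.Quotient).comp o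
  have hlift : ∀ x : R, MonoidAlgebra.lift ℤ M.ringCon.Quotient Γ σ x = q x := by
    intro x
    have : (MonoidAlgebra.lift ℤ M.ringCon.Quotient Γ σ : R →+* M.ringCon.Quotient) = q := by
      refine MonoidAlgebra.ringHom_ext ?_ ?_
      · intro z
        have e : (MonoidAlgebra.single 1 z : R) = (z : R) := (MonoidAlgebra.intCast_def z).symm
        rw [e]; simp
      · intro g; simp [σ, o]; rfl
    exact congrArg (fun f => f x) this
  have hdp : ∀ l : List Γ, dp σ l = q (dp o l) := by
    intro l; rw [← hlift]; exact (lift_dp σ l).symm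
  have hspan : ∀ x : R, x ∈ AddSubgroup.closure (Set.range o) := by
    intro x
    induction x using MonoidAlgebra.induction_on with
    | of g => exact AddSubgroup.subset_closure ⟨g, rfl⟩
    | add x y hx hy => exact AddSubgroup.add_mem _ hx hy
    | smul r x hx => exact AddSubgroup.zsmul_mem _ hx r
  have hspanq : ∀ x : M.ringCon.Quotient, x ∈ AddSubgroup.closure (Set.range σ) := by
    intro x
    obtain ⟨x, rfl⟩ := M.ringCon.mk'_surjective x
    have := hspan x
    induction this using AddSubgroup.closure_induction with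
    | mem x hx => obtain ⟨g, rfl⟩ := hx; exact AddSubgroup.subset_closure ⟨g, rfl⟩
    | zero => rw [map_zero]; exact AddSubgroup.zero_mem _
    | add x y _ _ hx hy => rw [map_add]; exact AddSubgroup.add_mem _ hx hy
    | neg x _ hx => rw [map_neg]; exact AddSubgroup.neg_mem _ hx
  refine ⟨M.ringCon.Quotient, inferInstance, σ, ?_, ?_, ?_, ?_⟩
  · intro x hx
    refine (hlift x).trans ((hq0 x).2 (hKM ?_))
    rw [TwoSidedIdeal.mem_ker]; exact hx
  · exact (AddSubgroup.eq_top_iff' _).2 hspanq
  · rintro ⟨n, hn⟩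
    obtain ⟨l, hl, hl'⟩ := hMT.2 n
    exact hl' ((hq0 _).1 (by rw [← hdp]; exact hn l hl))
  · intro a ha
    obtain ⟨a, rfl⟩ := M.ringCon.mk'_surjective a
    have haM : a ∉ M := fun h => ha ((hq0 a).2 h)
    -- the ideal of all x with q x ∈ Idl σ (q a)
    have hleft : ∀ x y, y ∈ Idl σ (q a) → x * y ∈ Idl σ (q a) := by
      intro x y hy
      have hx := hspanq x
      induction hx using AddSubgroup.closure_induction with
      | mem x hx =>
        obtain ⟨k, rfl⟩ := hx
        unfold Idl at hy ⊢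
        induction hy using AddSubgroup.closure_induction with
        | mem y hy =>
          obtain ⟨g, h, rfl⟩ := hy
          exact AddSubgroup.subset_closure ⟨k * g, h, by simp [mul_assoc]⟩
        | zero => simp
        | add x y _ _ hx hy => rw [mul_add]; exact AddSubgroup.add_mem _ hx hy
        | neg x _ hx => rw [mul_neg]; exact AddSubgroup.neg_mem _ hx
      | zero => simp
      | add x y _ _ hx hy => rw [add_mul]; exact AddSubgroup.add_mem _ hx hy
      | neg x _ hx => rw [neg_mul]; exact AddSubgroup.neg_mem _ hx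
    have hright : ∀ x y, x ∈ Idl σ (q a) → x * y ∈ Idl σ (q a) := by
      intro x y hx
      have hy := hspanq y
      induction hy using AddSubgroup.closure_induction with
      | mem y hy =>
        obtain ⟨k, rfl⟩ := hy
        unfold Idl at hx ⊢
        induction hx using AddSubgroup.closure_induction with
        | mem y hy =>
          obtain ⟨g, h, rfl⟩ := hy
          exact AddSubgroup.subset_closure ⟨g, h * k, by simp [mul_assoc]⟩
        | zero => simp
        | add x y _ _ hx hy => rw [add_mul]; exact AddSubgroup.add_mem _ hx hy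
        | neg x _ hx => rw [neg_mul]; exact AddSubgroup.neg_mem _ hx
      | zero => simp
      | add x y _ _ hx hy => rw [mul_add]; exact AddSubgroup.add_mem _ hx hy
      | neg x _ hx => rw [mul_neg]; exact AddSubgroup.neg_mem _ hx
    let J : TwoSidedIdeal R := TwoSidedIdeal.mk' {x | q x ∈ Idl σ (q a)}
      (by simp [AddSubgroup.zero_mem])
      (by intro x y hx hy; simp only [Set.mem_ofPred_eq, map_add] at *
          exact AddSubgroup.add_mem _ hx hy)
      (by intro x hx; simp only [Set.mem_ofPred_eq, map_neg] at *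
          exact AddSubgroup.neg_mem _ hx)
      (by intro x y hy; simp only [Set.mem_ofPred_eq, map_mul] at *; exact hleft _ _ hy)
      (by intro x y hx; simp only [Set.mem_ofPred_eq, map_mul] at *; exact hright _ _ hx)
    have hJ : ∀ x, x ∈ J ↔ q x ∈ Idl σ (q a) := fun x => TwoSidedIdeal.mem_mk' ..
    have hMJ : M ≤ J := by
      intro x hx
      rw [hJ, (hq0 x).2 hx]; exact AddSubgroup.zero_mem _
    have haJ : a ∈ J := by
      rw [hJ]; exact AddSubgroup.subset_closure ⟨1, 1, by simp⟩
    by_contra hcon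
    push Not at hcon
    have hJT : J ∈ T := by
      refine ⟨hKM.trans hMJ, fun n => ?_⟩
      obtain ⟨l, hl, hl'⟩ := hcon n
      exact ⟨l, hl, fun h => hl' (by rw [hdp]; exact (hJ _).1 h)⟩
    exact haM (hM.le_of_ge hJT hMJ haJ)

end Pool.Agent.Work.MP_d7201b_al.LN
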