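import Pool.Agent.Work.MP_d7201b_al_LN31.Lie

/-!
# Local nilpotence, part 4: cubic elements

The logarithms `x` of the elements `c` with `(ρ c - 1) ^ 3 = 0` span a Lie world.  Hence in a
prime-like ring an element `c` with `(ρ c - 1) ^ 3 = 0` is trivial, and so is an element commuting
with all its conjugates.
-/

namespace Pool.Agent.Work.MP_d7201b_al.LN

universe u v

variable {Γ : Type u} [Group Γ] {A : Type v} [Ring A]

/-- logarithms of cubic elements -/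
def IsLog (ρ : Γ →* A) (x : A) : Prop :=
  x * x * x = 0 ∧ ∃ c, ρ c = 1 + x + (3 : ℕ) • (x * x)

section
variable (h5 : (5 : A) = 0)
include h5

/-- interpolation -/
lemma interp (L : AddSubgroup A) {c0 c1 c2 c3 c4 : A}
    (h : ∀ j : ℕ, c0 + j • c1 + (j ^ 2) • c2 + (j ^ 3) • c3 + (j ^ 4) • c4 ∈ L) : c1 ∈ L := by
  have e : c1 = - (c0 + 1 • c1 + (1 ^ 2) • c2 + (1 ^ 3) • c3 + (1 ^ 4) • c4)
      - (3 : ℕ) • (c0 + 2 • c1 + (2 ^ 2) • c2 + (2 ^ 3) • c3 + (2 ^ 4) • c4)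
      - (2 : ℕ) • (c0 + 3 • c1 + (3 ^ 2) • c2 + (3 ^ 3) • c3 + (3 ^ 4) • c4)
      - (4 : ℕ) • (c0 + 4 • c1 + (4 ^ 2) • c2 + (4 ^ 3) • c3 + (4 ^ 4) • c4)
      + (5 : ℕ) • ((2 : ℕ) • c0 + (6 : ℕ) • c1 + (19 : ℕ) • c2 + (67 : ℕ) • c3
        + (247 : ℕ) • c4) := by
    module
  rw [e, five_smul h5, add_zero]
  exact L.sub_mem (L.sub_mem (L.sub_mem (L.neg_mem (h 1)) (L.nsmul_mem (h 2) 3))
    (L.nsmul_mem (h 3) 2)) (L.nsmul_mem (h 4) 4)

lemma log_pow {ρ : Γ →* A} {x : A} {c : Γ} (h3 : x * x * x = 0)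
    (hc : ρ c = 1 + x + (3 : ℕ) • (x * x)) (j : ℕ) :
    ρ (c ^ j) = 1 + j • x + (3 * j ^ 2) • (x * x) := by
  induction j with
  | zero => simp
  | succ j ih =>
    rw [pow_succ, map_mul, ih, hc]
    have h4 : x * x * (x * x) = 0 := by rw [← mul_assoc, h3, zero_mul]
    have h3' : x * (x * x) = 0 := by rw [← mul_assoc, h3]
    have e : (1 + j • x + (3 * j ^ 2) • (x * x)) * (1 + x + (3 : ℕ) • (x * x))
        = 1 + (j + 1) • x + ((3 + j + 3 * j ^ 2)) • (x * x) := by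
      simp only [add_mul, mul_add, one_mul, mul_one, smul_mul_assoc, mul_smul_comm, h3, h4, h3',
        smul_zero, add_zero, add_smul, one_smul]
      abel
    rw [e]
    have e2 : 3 * (j + 1) ^ 2 = (3 + j + 3 * j ^ 2) + j * 5 := by ring
    rw [e2, add_smul _ (j * 5), mul_smul, five_smul h5, smul_zero, add_zero]

lemma log_inv {ρ : Γ →* A} {x : A} {c : Γ} (h3 : x * x * x = 0)
    (hc : ρ c = 1 + x + (3 : ℕ) • (x * x)) : ρ c⁻¹ = 1 + (-x) + (3 : ℕ) • ((-x) * (-x)) := by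
  have h4 : x * x * (x * x) = 0 := by rw [← mul_assoc, h3, zero_mul]
  have h3' : x * (x * x) = 0 := by rw [← mul_assoc, h3]
  have e : (1 + (-x) + (3 : ℕ) • ((-x) * (-x))) * (1 + x + (3 : ℕ) • (x * x)) = 1 := by
    have : (1 + (-x) + (3 : ℕ) • ((-x) * (-x))) * (1 + x + (3 : ℕ) • (x * x))
        = 1 + (5 : ℕ) • (x * x) + (3 : ℕ) • (x * x * x) - (3 : ℕ) • (x * (x * x))
          + (9 : ℕ) • (x * x * (x * x)) := by noncomm_ring
    rw [this, five_smul h5, h3, h4, h3']; simp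
  rw [← hc] at e
  have : ρ c * ρ c⁻¹ = 1 := by rw [← map_mul, mul_inv_cancel, map_one]
  calc ρ c⁻¹ = ((1 + (-x) + (3 : ℕ) • ((-x) * (-x))) * ρ c) * ρ c⁻¹ := by rw [e, one_mul]
    _ = _ := by rw [mul_assoc, this, mul_one]

lemma log_pow_inv {ρ : Γ →* A} {x : A} {c : Γ} (h3 : x * x * x = 0)
    (hc : ρ c = 1 + x + (3 : ℕ) • (x * x)) (j : ℕ) :
    ρ (c ^ j)⁻¹ = 1 - j • x + (3 * j ^ 2) • (x * x) := by
  have h := log_pow h5 (x := -x) (c := c⁻¹) (by rw [neg_mul_neg, mul_neg, h3, neg_zero]) (log_inv h5 h3 hc) j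
  rw [← inv_pow, h]
  simp only [smul_neg, neg_mul_neg]
  abel

/-- one step of the extraction of the multilinear part -/
lemma step {ρ : Γ →* A} (α : A) (β β' : A → A) (γ γ' : A → A → A)
    (hβ : ∀ a b, β (a + b) = β a + β b) (hβ' : ∀ a b, β' (a + b) = β' a + β' b)
    (hγ : ∀ a b c, γ (a + b) c = γ a c + γ b c) (hγr : ∀ a b c, γ a (b + c) = γ a b + γ a c)
    (hγ' : ∀ a b c, γ' (a + b) c = γ' a c + γ' b c)
    (hγr' : ∀ a b c, γ' a (b + c) = γ' a b + γ' a c)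
    (h : ∀ w : Γ, α + β (ρ w) + γ (ρ w) (ρ w) + β' (ρ w⁻¹) + γ' (ρ w⁻¹) (ρ w⁻¹) = 0)
    (w : Γ) {x : A} (hx : IsLog ρ x) :
    β (ρ w * x) + γ (ρ w * x) (ρ w) + γ (ρ w) (ρ w * x)
      - β' (x * ρ w⁻¹) - γ' (x * ρ w⁻¹) (ρ w⁻¹) - γ' (ρ w⁻¹) (x * ρ w⁻¹) = 0 := by
  obtain ⟨h3, c, hc⟩ := hx
  let B : A →+ A := AddMonoidHom.mk' β hβ
  let B' : A →+ A := AddMonoidHom.mk' β' hβ'
  let G : A →+ A →+ A := AddMonoidHom.mk' (fun a => AddMonoidHom.mk' (γ a) (hγr a))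
    (fun a b => by ext c; exact hγ a b c)
  let G' : A →+ A →+ A := AddMonoidHom.mk' (fun a => AddMonoidHom.mk' (γ' a) (hγr' a))
    (fun a b => by ext c; exact hγ' a b c)
  set u := ρ w with hu
  set v := ρ w⁻¹ with hv
  have hB : ∀ a, β a = B a := fun _ => rfl
  have hB' : ∀ a, β' a = B' a := fun _ => rfl
  have hG : ∀ a b, γ a b = G a b := fun _ _ => rfl
  have hG' : ∀ a b, γ' a b = G' a b := fun _ _ => rfl
  -- the coefficients
  have key := interp h5 (⊥ : AddSubgroup A)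
    (c0 := α + B u + G u u + B' v + G' v v)
    (c1 := B (u * x) + G (u * x) u + G u (u * x) - B' (x * v) - G' (x * v) v - G' v (x * v))
    (c2 := (3 : ℕ) • B (u * (x * x)) + (3 : ℕ) • G (u * (x * x)) u + (3 : ℕ) • G u (u * (x * x))
      + G (u * x) (u * x) + (3 : ℕ) • B' (x * x * v) + (3 : ℕ) • G' (x * x * v) v
      + (3 : ℕ) • G' v (x * x * v) + G' (x * v) (x * v))
    (c3 := (3 : ℕ) • G (u * x) (u * (x * x)) + (3 : ℕ) • G (u * (x * x)) (u * x)
      - (3 : ℕ) • G' (x * v) (x * x * v) - (3 : ℕ) • G' (x * x * v) (x * v))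
    (c4 := (9 : ℕ) • G (u * (x * x)) (u * (x * x)) + (9 : ℕ) • G' (x * x * v) (x * x * v))
    (by
      intro j
      rw [AddSubgroup.mem_bot]
      have hw := h (w * c ^ j)
      have e1 : ρ (w * c ^ j) = u + j • (u * x) + (3 * j ^ 2) • (u * (x * x)) := by
        rw [map_mul, log_pow h5 h3 hc]
        simp only [mul_add, mul_one, mul_smul_comm, hu]
      have e2 : ρ (w * c ^ j)⁻¹ = v - j • (x * v) + (3 * j ^ 2) • (x * x * v) := by
        rw [mul_inv_rev, map_mul, log_pow_inv h5 h3 hc]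
        simp only [add_mul, sub_mul, one_mul, smul_mul_assoc, hv]
      rw [e1, e2, hB, hB', hG, hG'] at hw
      rw [← hw]
      simp only [map_add, map_sub, map_nsmul, AddMonoidHom.add_apply, AddMonoidHom.sub_apply,
        AddMonoidHom.nsmul_apply, smul_add, smul_sub, ← mul_nsmul]
      module)
  rw [AddSubgroup.mem_bot] at key
  exact key

/-- the span of the logarithms -/
def LL (ρ : Γ →* A) : AddSubgroup A := AddSubgroup.closure {x | IsLog ρ x}

omit h5 in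
lemma LL_induction {ρ : Γ →* A} (P : A → Prop) (h0 : P 0) (hadd : ∀ x y, P x → P y → P (x + y))
    (hneg : ∀ x, P x → P (-x)) (hlog : ∀ x, IsLog ρ x → P x) {x : A} (hx : x ∈ LL ρ) : P x := by
  unfold LL at hx
  induction hx using AddSubgroup.closure_induction with
  | mem x hx => exact hlog x hx
  | zero => exact h0
  | add x y _ _ hx hy => exact hadd x y hx hy
  | neg x _ hx => exact hneg x hx

lemma norm_eq {ρ : Γ →* A} (h4 : ∀ g, (ρ g - 1) ^ 4 = 0) (w : Γ) :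
    1 + ρ w + ρ w * ρ w + ρ w⁻¹ + ρ w⁻¹ * ρ w⁻¹ = 0 := by
  have huv : ρ w * ρ w⁻¹ = 1 := by rw [← map_mul, mul_inv_cancel, map_one]
  have h := h4 w
  set u := ρ w
  set v := ρ w⁻¹
  have huv2 : u * (u * (v * v)) = 1 := by rw [← mul_assoc u v v, huv, one_mul, huv]
  have e : 1 + u + u * u + v + v * v = (u - 1) ^ 4 * (v * v) + (5 : ℕ) • (u + v - 1) := by
    have e1 : (u - 1) ^ 4 * (v * v) = u * u * (u * (u * (v * v))) - (4 : ℕ) • (u * (u * (u * (v * v))))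
        + (6 : ℕ) • (u * (u * (v * v))) - (4 : ℕ) • (u * (v * v)) + v * v := by noncomm_ring
    rw [e1, huv2, ← mul_assoc u v v, huv, one_mul]
    simp only [mul_one, smul_add, smul_sub]
    abel
  rw [e, h, five_smul h5]; simp

/-- first derivative -/
lemma G1 {ρ : Γ →* A} (h4 : ∀ g, (ρ g - 1) ^ 4 = 0) (w : Γ) {x : A} (hx : x ∈ LL ρ) :
    ρ w * x + ρ w * x * ρ w + ρ w * ρ w * x - x * ρ w⁻¹ - x * ρ w⁻¹ * ρ w⁻¹
      - ρ w⁻¹ * x * ρ w⁻¹ = 0 := by
  refine LL_induction (ρ := ρ) (fun x => ρ w * x + ρ w * x * ρ w + ρ w * ρ w * x - x * ρ w⁻¹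
    - x * ρ w⁻¹ * ρ w⁻¹ - ρ w⁻¹ * x * ρ w⁻¹ = 0) ?_ ?_ ?_ ?_ hx
  · simp
  · intro x y hx hy
    rw [← add_zero (0 : A), ← hx]
    nth_rewrite 2 [hx]
    rw [← hy]; noncomm_ring
  · intro x hx
    rw [← neg_zero (G := A), ← hx]; noncomm_ring
  · intro x hx
    have := step h5 (ρ := ρ) 1 (fun a => a) (fun a => a) (fun a b => a * b) (fun a b => a * b)
      (fun _ _ => rfl) (fun _ _ => rfl) (fun _ _ _ => add_mul _ _ _) (fun _ _ _ => mul_add _ _ _)
      (fun _ _ _ => add_mul _ _ _) (fun _ _ _ => mul_add _ _ _) (norm_eq h5 h4) w hx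
    rw [← this]; noncomm_ring

/-- second derivative -/
lemma G2 {ρ : Γ →* A} (h4 : ∀ g, (ρ g - 1) ^ 4 = 0) (w : Γ) {x y : A} (hx : x ∈ LL ρ)
    (hy : y ∈ LL ρ) :
    ρ w * y * x + (ρ w * y * x * ρ w + ρ w * y * ρ w * x) + (ρ w * x * ρ w * y
      + ρ w * ρ w * y * x) + x * y * ρ w⁻¹ + (x * y * ρ w⁻¹ * ρ w⁻¹ + y * ρ w⁻¹ * x * ρ w⁻¹)
      + (x * ρ w⁻¹ * y * ρ w⁻¹ + ρ w⁻¹ * x * y * ρ w⁻¹) = 0 := by
  refine LL_induction (ρ := ρ) (fun y => ρ w * y * x + (ρ w * y * x * ρ w + ρ w * y * ρ w * x)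
      + (ρ w * x * ρ w * y
      + ρ w * ρ w * y * x) + x * y * ρ w⁻¹ + (x * y * ρ w⁻¹ * ρ w⁻¹ + y * ρ w⁻¹ * x * ρ w⁻¹)
      + (x * ρ w⁻¹ * y * ρ w⁻¹ + ρ w⁻¹ * x * y * ρ w⁻¹) = 0) ?_ ?_ ?_ ?_ hy
  · simp
  · intro x y hx hy
    rw [← add_zero (0 : A), ← hx]
    nth_rewrite 2 [hx]
    rw [← hy]; noncomm_ring
  · intro x hx
    rw [← neg_zero (G := A), ← hx]; noncomm_ring
  · intro y hy
    have := step h5 (ρ := ρ) 0 (fun a => a * x) (fun a => - (x * a))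
      (fun a b => a * x * b + a * b * x) (fun a b => - (x * a * b) - a * x * b)
      (fun _ _ => by noncomm_ring) (fun _ _ => by noncomm_ring) (fun _ _ _ => by noncomm_ring)
      (fun _ _ _ => by noncomm_ring) (fun _ _ _ => by noncomm_ring)
      (fun _ _ _ => by noncomm_ring) (fun w => Eq.trans (by noncomm_ring) (G1 h5 h4 w hx)) w hy
    rw [← this]; noncomm_ring

/-- third derivative -/
lemma G3 {ρ : Γ →* A} (h4 : ∀ g, (ρ g - 1) ^ 4 = 0) (w : Γ) {x y z : A} (hx : x ∈ LL ρ)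
    (hy : y ∈ LL ρ) (hz : z ∈ LL ρ) :
    ρ w * z * y * x
      + (ρ w * z * y * x * ρ w + ρ w * y * x * ρ w * z)
      + (ρ w * z * x * ρ w * y + ρ w * x * ρ w * z * y)
      + (ρ w * z * y * ρ w * x + ρ w * y * ρ w * z * x)
      + (ρ w * z * ρ w * y * x + ρ w * ρ w * z * y * x)
      - x * y * z * ρ w⁻¹
      - (x * y * z * ρ w⁻¹ * ρ w⁻¹ + x * y * ρ w⁻¹ * z * ρ w⁻¹)
      - (x * z * ρ w⁻¹ * y * ρ w⁻¹ + x * ρ w⁻¹ * y * z * ρ w⁻¹)
      - (y * z * ρ w⁻¹ * x * ρ w⁻¹ + y * ρ w⁻¹ * x * z * ρ w⁻¹)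
      - (z * ρ w⁻¹ * x * y * ρ w⁻¹ + ρ w⁻¹ * x * y * z * ρ w⁻¹) = 0 := by
  refine LL_induction (ρ := ρ) (fun z => ρ w * z * y * x
      + (ρ w * z * y * x * ρ w + ρ w * y * x * ρ w * z)
      + (ρ w * z * x * ρ w * y + ρ w * x * ρ w * z * y)
      + (ρ w * z * y * ρ w * x + ρ w * y * ρ w * z * x)
      + (ρ w * z * ρ w * y * x + ρ w * ρ w * z * y * x)
      - x * y * z * ρ w⁻¹
      - (x * y * z * ρ w⁻¹ * ρ w⁻¹ + x * y * ρ w⁻¹ * z * ρ w⁻¹)
      - (x * z * ρ w⁻¹ * y * ρ w⁻¹ + x * ρ w⁻¹ * y * z * ρ w⁻¹)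
      - (y * z * ρ w⁻¹ * x * ρ w⁻¹ + y * ρ w⁻¹ * x * z * ρ w⁻¹)
      - (z * ρ w⁻¹ * x * y * ρ w⁻¹ + ρ w⁻¹ * x * y * z * ρ w⁻¹) = 0) ?_ ?_ ?_ ?_ hz
  · simp
  · intro x y hx hy
    rw [← add_zero (0 : A), ← hx]
    nth_rewrite 2 [hx]
    rw [← hy]; noncomm_ring
  · intro x hx
    rw [← neg_zero (G := A), ← hx]; noncomm_ring
  · intro z hz
    have := step h5 (ρ := ρ) 0 (fun a => a * y * x) (fun a => x * y * a)
      (fun a b => a * y * x * b + a * x * b * y + a * y * b * x + a * b * y * x)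
      (fun a b => x * y * a * b + x * a * y * b + y * a * x * b + a * x * y * b)
      (fun _ _ => by noncomm_ring) (fun _ _ => by noncomm_ring) (fun _ _ _ => by noncomm_ring)
      (fun _ _ _ => by noncomm_ring) (fun _ _ _ => by noncomm_ring)
      (fun _ _ _ => by noncomm_ring) (fun w => Eq.trans (by noncomm_ring) (G2 h5 h4 w hx hy)) w hz
    rw [← this]; noncomm_ring

/-- fourth derivative at `1` -/
lemma G4 {ρ : Γ →* A} (h4 : ∀ g, (ρ g - 1) ^ 4 = 0) {x y z t : A} (hx : x ∈ LL ρ)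
    (hy : y ∈ LL ρ) (hz : z ∈ LL ρ) (ht : t ∈ LL ρ) : S4 x y z t = 0 := by
  refine LL_induction (ρ := ρ) (fun t => S4 x y z t = 0) ?_ ?_ ?_ ?_ ht
  · simp [S4]
  · intro a b ha hb
    rw [← add_zero (0 : A), ← ha]
    nth_rewrite 2 [ha]
    rw [← hb]; simp only [S4]; noncomm_ring
  · intro a ha
    rw [← neg_zero (G := A), ← ha]; simp only [S4]; noncomm_ring
  · intro t ht
    have := step h5 (ρ := ρ) 0 (fun a => a * z * y * x) (fun a => - (x * y * z * a))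
      (fun a b => a * z * y * x * b + a * y * x * b * z + a * z * x * b * y + a * x * b * z * y
        + a * z * y * b * x + a * y * b * z * x + a * z * b * y * x + a * b * z * y * x)
      (fun a b => - (x * y * z * a * b + x * y * a * z * b + x * z * a * y * b
        + x * a * y * z * b + y * z * a * x * b + y * a * x * z * b + z * a * x * y * b
        + a * x * y * z * b))
      (fun _ _ => by noncomm_ring) (fun _ _ => by noncomm_ring) (fun _ _ _ => by noncomm_ring)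
      (fun _ _ _ => by noncomm_ring) (fun _ _ _ => by noncomm_ring)
      (fun _ _ _ => by noncomm_ring) (fun w => Eq.trans (by noncomm_ring) (G3 h5 h4 w hx hy hz)) 1 ht
    simp only [inv_one, map_one, one_mul, mul_one] at this
    have e : S4 x y z t = (t * z * y * x
      + (t * z * y * x + t * y * x * z + t * z * x * y + t * x * z * y
        + t * z * y * x + t * y * z * x + t * z * y * x + t * z * y * x)
      + (z * y * x * t + y * x * t * z + z * x * t * y + x * t * z * y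
        + z * y * t * x + y * t * z * x + z * t * y * x + t * z * y * x)
      - (-(x * y * z * t))
      - (-(x * y * z * t + x * y * t * z + x * z * t * y
        + x * t * y * z + y * z * t * x + y * t * x * z + z * t * x * y
        + t * x * y * z))
      - (-(x * y * z * t + x * y * z * t + x * z * y * t
        + x * y * z * t + y * z * x * t + y * x * z * t + z * x * y * t
        + x * y * z * t)))
      - (5 : ℕ) • (t * z * y * x + x * y * z * t) := by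
      simp only [S4]; noncomm_ring
    rw [e, five_smul h5, sub_zero, ← this]

/-- the logarithms of cubic elements span a Lie world -/
theorem lieW_LL {ρ : Γ →* A} (h4 : ∀ g, (ρ g - 1) ^ 4 = 0) : LieW ρ (LL ρ) := by
  have hinv : ∀ g : Γ, ρ g⁻¹ * ρ g = 1 := fun g => by rw [← map_mul, inv_mul_cancel, map_one]
  have hinv' : ∀ g : Γ, ρ g * ρ g⁻¹ = 1 := fun g => by rw [← map_mul, mul_inv_cancel, map_one]
  have hconj : ∀ g, ∀ x ∈ LL ρ, ρ g * x * ρ g⁻¹ ∈ LL ρ := by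
    intro g x hx
    refine LL_induction (ρ := ρ) (fun x => ρ g * x * ρ g⁻¹ ∈ LL ρ) ?_ ?_ ?_ ?_ hx
    · simp
    · intro x y hx hy; rw [mul_add, add_mul]; exact AddSubgroup.add_mem _ hx hy
    · intro x hx; rw [mul_neg, neg_mul]; exact AddSubgroup.neg_mem _ hx
    · rintro x ⟨h3, c, hc⟩
      have h2 : ρ g * x * ρ g⁻¹ * (ρ g * x * ρ g⁻¹) = ρ g * (x * x) * ρ g⁻¹ := by
        have : ρ g * x * ρ g⁻¹ * (ρ g * x * ρ g⁻¹) = ρ g * x * (ρ g⁻¹ * ρ g) * x * ρ g⁻¹ := by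
          noncomm_ring
        rw [this, hinv]; noncomm_ring
      refine AddSubgroup.subset_closure ⟨?_, g * c * g⁻¹, ?_⟩
      · rw [h2]
        have : ρ g * (x * x) * ρ g⁻¹ * (ρ g * x * ρ g⁻¹)
            = ρ g * (x * x) * (ρ g⁻¹ * ρ g) * x * ρ g⁻¹ := by noncomm_ring
        rw [this, hinv, mul_one]
        have : ρ g * (x * x) * x * ρ g⁻¹ = ρ g * (x * x * x) * ρ g⁻¹ := by noncomm_ring
        rw [this, h3]; simp
      · rw [map_mul, map_mul, hc, h2]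
        have : ρ g * (1 + x + (3 : ℕ) • (x * x)) * ρ g⁻¹
            = ρ g * ρ g⁻¹ + ρ g * x * ρ g⁻¹ + (3 : ℕ) • (ρ g * (x * x) * ρ g⁻¹) := by
          noncomm_ring
        rw [this, hinv']
  refine ⟨hconj, ?_, fun x hx y hy z hz t ht => G4 h5 h4 hx hy hz ht⟩
  intro x hx y hy
  refine LL_induction (ρ := ρ) (fun x => x * y - y * x ∈ LL ρ) ?_ ?_ ?_ ?_ hx
  · simp
  · intro a b ha hb
    have : (a + b) * y - y * (a + b) = (a * y - y * a) + (b * y - y * b) := by noncomm_ring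
    rw [this]; exact AddSubgroup.add_mem _ ha hb
  · intro a ha
    have : (-a) * y - y * (-a) = - (a * y - y * a) := by noncomm_ring
    rw [this]; exact AddSubgroup.neg_mem _ ha
  · rintro x ⟨h3, c, hc⟩
    refine interp h5 (LL ρ) (c0 := y) (c1 := x * y - y * x)
      (c2 := (3 : ℕ) • (x * x * y) - x * y * x + (3 : ℕ) • (y * (x * x)))
      (c3 := (3 : ℕ) • (x * y * (x * x)) - (3 : ℕ) • (x * x * y * x))
      (c4 := (9 : ℕ) • (x * x * y * (x * x))) ?_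
    intro j
    have := hconj (c ^ j) y hy
    rw [log_pow h5 h3 hc, log_pow_inv h5 h3 hc] at this
    have e : y + j • (x * y - y * x)
        + (j ^ 2) • ((3 : ℕ) • (x * x * y) - x * y * x + (3 : ℕ) • (y * (x * x)))
        + (j ^ 3) • ((3 : ℕ) • (x * y * (x * x)) - (3 : ℕ) • (x * x * y * x))
        + (j ^ 4) • ((9 : ℕ) • (x * x * y * (x * x)))
        = (1 + j • x + (3 * j ^ 2) • (x * x)) * y * (1 - j • x + (3 * j ^ 2) • (x * x)) := by
      simp only [mul_add, mul_sub, add_mul, mul_one, one_mul, smul_mul_assoc,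
        mul_smul_comm, smul_add, smul_sub, smul_smul, mul_assoc]
      module
    rw [e]
    exact this

omit h5 in
lemma semiprime {ρ : Γ →* A} (hP : PrimeLike ρ) (hN : ¬ Nil ρ) {a : A}
    (ha : ∀ g, a * ρ g * a = 0) : a = 0 := by
  by_contra h0
  obtain ⟨n, hn⟩ := hP a h0
  refine hN ⟨n + n, fun l hl => ?_⟩
  rw [← List.take_append_drop n l, dp_append]
  have h1 := hn (l.take n) (by rw [List.length_take]; omega)
  have h2 := hn (l.drop n) (by rw [List.length_drop]; omega)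
  unfold Idl at h1 h2
  generalize dp ρ (l.take n) = a1 at h1 ⊢
  generalize dp ρ (l.drop n) = a2 at h2 ⊢
  induction h1 using AddSubgroup.closure_induction with
  | mem x hx =>
    obtain ⟨g, h, rfl⟩ := hx
    induction h2 using AddSubgroup.closure_induction with
    | mem y hy =>
      obtain ⟨g', h', rfl⟩ := hy
      have := ha (h * g')
      rw [map_mul] at this
      have e : ρ g * a * ρ h * (ρ g' * a * ρ h') = ρ g * (a * (ρ h * ρ g') * a) * ρ h' := by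
        noncomm_ring
      rw [e, this]; simp
    | zero => simp
    | add x y _ _ hx hy => rw [mul_add, hx, hy, add_zero]
    | neg x _ hx => rw [mul_neg, hx, neg_zero]
  | zero => simp
  | add x y _ _ hx hy => rw [add_mul, hx, hy, add_zero]
  | neg x _ hx => rw [neg_mul, hx, neg_zero]

/-- (D3) In a prime-like ring cubic elements are trivial. -/
theorem D3 [Group.FG Γ] {ρ : Γ →* A} (hP : PrimeLike ρ) (hN : ¬ Nil ρ)
    (h4 : ∀ g, (ρ g - 1) ^ 4 = 0) {c : Γ} (hc : (ρ c - 1) ^ 3 = 0) : ρ c = 1 := by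
  set y := ρ c - 1 with hy
  have hy3 : y * y * y = 0 := by rw [← hc]; noncomm_ring
  have hy3' : y * (y * y) = 0 := by rw [← mul_assoc]; exact hy3
  have hy4 : y * y * (y * y) = 0 := by rw [← mul_assoc, hy3, zero_mul]
  have hx2 : (y + (2 : ℕ) • (y * y)) * (y + (2 : ℕ) • (y * y)) = y * y := by
    have : (y + (2 : ℕ) • (y * y)) * (y + (2 : ℕ) • (y * y))
        = y * y + (2 : ℕ) • (y * (y * y)) + (2 : ℕ) • (y * y * y)
          + (4 : ℕ) • (y * y * (y * y)) := by noncomm_ring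
    rw [this, hy3, hy3', hy4]; simp
  have hlog : IsLog ρ (y + (2 : ℕ) • (y * y)) := by
    refine ⟨?_, c, ?_⟩
    · rw [hx2, mul_add, mul_smul_comm, hy3, hy4]; simp
    · rw [hx2]
      have : ρ c = 1 + (y + (2 : ℕ) • (y * y)) + (3 : ℕ) • (y * y) - (5 : ℕ) • (y * y) := by
        rw [hy]; noncomm_ring
      rw [this, five_smul h5, sub_zero]
  have h0 : y + (2 : ℕ) • (y * y) = 0 :=
    D3L h5 hP hN (lieW_LL h5 h4) (AddSubgroup.subset_closure hlog)
      (by rw [hx2, mul_add, mul_smul_comm, hy3, hy4]; simp)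
  have h1 : y * y = 0 := by rw [← hx2, h0, mul_zero]
  rw [h1, smul_zero, add_zero] at h0
  exact sub_eq_zero.1 h0

/-- In a prime-like ring an element commuting with all its conjugates is trivial. -/
theorem commuting_trivial [Group.FG Γ] {ρ : Γ →* A} (hP : PrimeLike ρ) (hN : ¬ Nil ρ)
    (h4 : ∀ g, (ρ g - 1) ^ 4 = 0) {c : Γ}
    (hc : ∀ g : Γ, ρ c * ρ (g * c * g⁻¹) = ρ (g * c * g⁻¹) * ρ c) : ρ c = 1 := by
  refine D3 h5 hP hN h4 (semiprime hP hN fun g => ?_)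
  set x := ρ c - 1 with hx
  set y := ρ (g * c * g⁻¹) - 1 with hy
  have hxy : x * y = y * x := by
    have := hc g
    rw [hx, hy, sub_mul, mul_sub, sub_mul, mul_sub, this]; noncomm_ring
  have hx4 : x ^ 4 = 0 := h4 c
  have hy4 : y ^ 4 = 0 := h4 _
  have hs4 : (x + y + x * y) ^ 4 = 0 := by
    have h := h4 (c * (g * c * g⁻¹))
    rw [map_mul] at h
    rw [← h]
    congr 1
    rw [hx, hy]; noncomm_ring
  -- x² s⁴ = 4 x³ y³
  set s := x + y + x * y with hs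
  have hsx : ∀ k l : ℕ, x ^ k * y ^ l * s = x ^ (k + 1) * y ^ l + x ^ k * y ^ (l + 1)
      + x ^ (k + 1) * y ^ (l + 1) := by
    intro k l
    have hc1 : y ^ l * x = x * y ^ l := (Commute.pow_left (show Commute y x from hxy.symm) l).eq
    rw [hs, mul_add, mul_add, ← mul_assoc, mul_assoc (x ^ k) (y ^ l) x, hc1, ← mul_assoc (x ^ k),
      ← pow_succ, mul_assoc (x ^ k) (y ^ l) y, ← pow_succ, mul_assoc (x ^ (k + 1)) (y ^ l) y,
      ← pow_succ]
  have hx5 : ∀ k, x ^ (k + 4) = 0 := fun k => by rw [pow_add, hx4, mul_zero]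
  have hy5 : ∀ k, y ^ (k + 4) = 0 := fun k => by rw [pow_add, hy4, mul_zero]
  have t1 : x ^ 2 * s = x ^ 3 + x ^ 2 * y ^ 1 + x ^ 3 * y ^ 1 := by
    have := hsx 2 0
    simpa using this
  have t2 : x ^ 2 * s ^ 2 = (2 : ℕ) • (x ^ 3 * y ^ 1) + x ^ 2 * y ^ 2
      + (2 : ℕ) • (x ^ 3 * y ^ 2) := by
    have e1 := hsx 3 0
    have e2 := hsx 2 1
    have e3 := hsx 3 1
    have z : x ^ (3 + 1) = 0 := hx4
    rw [z] at e1 e3
    simp only [pow_zero, mul_one, zero_mul, zero_add, add_zero] at e1 e3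
    rw [pow_two s, ← mul_assoc, t1, add_mul, add_mul, e1, e2, e3]
    abel
  have t3 : x ^ 2 * s ^ 3 = (3 : ℕ) • (x ^ 3 * y ^ 2) + x ^ 2 * y ^ 3
      + (3 : ℕ) • (x ^ 3 * y ^ 3) := by
    have e1 := hsx 3 1
    have e2 := hsx 2 2
    have e3 := hsx 3 2
    have z : x ^ (3 + 1) = 0 := hx4
    rw [z] at e1 e3
    rw [pow_succ s 2, ← mul_assoc, t2, add_mul, add_mul, smul_mul_assoc, smul_mul_assoc, e1, e2, e3]
    simp only [zero_mul, zero_add, add_zero]
    abel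
  have t4 : x ^ 2 * s ^ 4 = (4 : ℕ) • (x ^ 3 * y ^ 3) := by
    have e1 := hsx 3 2
    have e2 := hsx 2 3
    have e3 := hsx 3 3
    have z : x ^ (3 + 1) = 0 := hx4
    have z' : y ^ (3 + 1) = 0 := hy4
    rw [z] at e1 e3
    rw [z'] at e2 e3
    rw [pow_succ s 3, ← mul_assoc, t3, add_mul, add_mul, smul_mul_assoc, smul_mul_assoc, e1, e2, e3]
    simp only [zero_mul, mul_zero, zero_add, add_zero, smul_zero]
    abel
  have t5 : x ^ 3 * y ^ 3 = 0 := by
    rw [hs4, mul_zero] at t4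
    have h1 := five_smul h5 (x ^ 3 * y ^ 3)
    have : x ^ 3 * y ^ 3 = (5 : ℕ) • (x ^ 3 * y ^ 3) - (4 : ℕ) • (x ^ 3 * y ^ 3) := by abel
    rw [this, h1, ← t4, sub_zero]
  -- y = g x g⁻¹
  have hinv : ρ g⁻¹ * ρ g = 1 := by rw [← map_mul, inv_mul_cancel, map_one]
  have hinv' : ρ g * ρ g⁻¹ = 1 := by rw [← map_mul, mul_inv_cancel, map_one]
  have hyx : y * ρ g = ρ g * x := by
    rw [hy, hx, map_mul, map_mul, sub_mul, mul_sub, mul_assoc, mul_assoc, hinv]; simp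
  have hyx3 : y ^ 3 * ρ g = ρ g * x ^ 3 := by
    have : y ^ 3 * ρ g = y * (y * (y * ρ g)) := by noncomm_ring
    rw [this, hyx, ← mul_assoc y (ρ g), hyx, ← mul_assoc y, ← mul_assoc y, hyx]; noncomm_ring
  have : x ^ 3 * ρ g * x ^ 3 = x ^ 3 * y ^ 3 * ρ g := by
    rw [mul_assoc, ← hyx3, mul_assoc]
  rw [this, t5, zero_mul]

end

end Pool.Agent.Work.MP_d7201b_al.LN
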