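import Pool.Agent.Work.MP_d7201b_al_LN31.NilAct
import Pool.Agent.Work.MP_d7201b_al_T2.Main
import Pool.Agent.Work.MP_d7201b_al_helper31x.C

/-!
# The final assembly: class at most six
-/

set_option autoImplicit false

namespace Pool.Agent.Work.MP_d7201b_al.LN

open L2 L3 L3x
open Pool.Agent.Work.MP_d7201b_al_helper73

universe u

/-- The class of the normal closure of a right 4-Engel element is at most six. -/
theorem class_le_six (h2 : Stmt_P.{u} 2 7) (h3 : Stmt_P.{u} 3 7) (hFin : FinStmt.{u})
    {G : Type u} [Group G] {x : G} (he : IsRightEngel 4 x)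
    (hn : Group.IsNilpotent (Subgroup.normalClosure {x})) :
    Group.nilpotencyClass (Subgroup.normalClosure {x}) ≤ 6 := by
  refine class_bound 6 (by norm_num) he ?_ hn
  intro c hc hk p hp a l hl
  have hx : x ∈ Subgroup.normalClosure {x} :=
    Subgroup.subset_normalClosure (Set.mem_singleton x)
  have hPP : ∀ p : ℕ, Stmt_P.{u} p 7 →
      ∃ w : Last (Subgroup.normalClosure {x}) c hc, p • w = value hc x a l := by
    intro p hP
    have h := hP (G := G)
      (M := Last (Subgroup.normalClosure {x}) c hc ⧸
        (nsmulAddMonoidHom (α := Last (Subgroup.normalClosure {x}) c hc) p).range)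
      (fun w => QuotientAddGroup.mk' _ (val hc x w []))
      (rs_val hc hx he _) (by
        intro m
        obtain ⟨y, rfl⟩ := QuotientAddGroup.mk'_surjective _ m
        rw [← map_nsmul]
        exact (QuotientAddGroup.eq_zero_iff _).2 ⟨y, rfl⟩) (a :: l) (by
        rw [List.length_cons, hl]; omega)
    rw [val_eq] at h
    obtain ⟨w, hw⟩ := (QuotientAddGroup.eq_zero_iff _).1 h
    exact ⟨w, hw⟩
  rw [Finset.mem_insert, Finset.mem_insert, Finset.mem_singleton] at hp
  rcases hp with rfl | rfl | rfl
  · exact hPP 2 h2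
  · exact hPP 3 h3
  · exact T2.five_div he hc hk a l hl (nilAct_of hc hFin he a l)

end Pool.Agent.Work.MP_d7201b_al.LN
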