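import Pool.Agent.Work.MP_d7201b_al_LN31.PStar

/-!
# Local nilpotence, part 3: Lie worlds

`L` an additive subgroup of `A` invariant under conjugation by `Γ`, closed under brackets and
satisfying `∑ x_σ1 x_σ2 x_σ3 x_σ4 = 0`.  In a prime-like ring `L` has no nonzero element `x` with
`x ^ 3 = 0`.
-/

namespace Pool.Agent.Work.MP_d7201b_al.LN

universe u v

variable {Γ : Type u} [Group Γ] {A : Type v} [Ring A]

/-- the symmetrisation of the product of four elements -/
def S4 (a b c d : A) : A :=
  a*b*c*d + a*b*d*c + a*c*b*d + a*c*d*b + a*d*b*c + a*d*c*b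
  + (b*a*c*d + b*a*d*c + b*c*a*d + b*c*d*a + b*d*a*c + b*d*c*a)
  + (c*a*b*d + c*a*d*b + c*b*a*d + c*b*d*a + c*d*a*b + c*d*b*a)
  + (d*a*b*c + d*a*c*b + d*b*a*c + d*b*c*a + d*c*a*b + d*c*b*a)

/-- a Lie world -/
structure LieW (ρ : Γ →* A) (L : AddSubgroup A) : Prop where
  inv : ∀ g, ∀ x ∈ L, ρ g * x * ρ g⁻¹ ∈ L
  br : ∀ x ∈ L, ∀ y ∈ L, x * y - y * x ∈ L
  s4 : ∀ x ∈ L, ∀ y ∈ L, ∀ z ∈ L, ∀ t ∈ L, S4 x y z t = 0

section
variable (h5 : (5 : A) = 0)
include h5

lemma five_smul (a : A) : (5 : ℕ) • a = 0 := by
  rw [nsmul_eq_mul]; push_cast; rw [h5, zero_mul]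

lemma two_cancel {a : A} (h : (2 : ℕ) • a = 0) : a = 0 := by
  have h1 := five_smul h5 a
  have : a = (5 : ℕ) • a - (2 : ℕ) • ((2 : ℕ) • a) := by
    rw [← mul_nsmul]; abel
  rw [this, h, h1]; simp

lemma two_mem (L : AddSubgroup A) {a : A} (h : (2 : ℕ) • a ∈ L) : a ∈ L := by
  have h1 := five_smul h5 a
  have : a = (3 : ℕ) • ((2 : ℕ) • a) - (5 : ℕ) • a := by
    rw [← mul_nsmul]; abel
  rw [this, h1, sub_zero]
  exact AddSubgroup.nsmul_mem _ h 3

lemma c24_cancel {a : A} (h : (24 : ℕ) • a = 0) : a = 0 := by
  have h1 := five_smul h5 a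
  have : a = (5 : ℕ) • ((5 : ℕ) • a) - (24 : ℕ) • a := by
    rw [← mul_nsmul]; abel
  rw [this, h, h1]; simp

/-- The subring generated by a Lie world, `E` an element of it whose sandwiches with words of
length at most three vanish: all sandwiches vanish. -/
lemma sandwich {L : AddSubgroup A} (hbr : ∀ x ∈ L, ∀ y ∈ L, x * y - y * x ∈ L)
    (hs4 : ∀ x ∈ L, ∀ y ∈ L, ∀ z ∈ L, ∀ t ∈ L, S4 x y z t = 0) (E : A)
    (e0 : E * E = 0) (e1 : ∀ x ∈ L, E * x * E = 0) (e2 : ∀ x ∈ L, ∀ y ∈ L, E * (x * y) * E = 0)
    (e3 : ∀ x ∈ L, ∀ y ∈ L, ∀ z ∈ L, E * (x * y * z) * E = 0) :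
    ∀ (n : ℕ) (l : List A), l.length = n → (∀ x ∈ l, x ∈ L) → E * l.prod * E = 0 := by
  intro n
  induction n using Nat.strong_induction_on with
  | _ n ih =>
    intro l hl hL
    match l, hl, hL with
    | [], _, _ => simpa using e0
    | [x], _, hL => simpa using e1 x (hL x (by simp))
    | [x, y], _, hL => simpa using e2 x (hL x (by simp)) y (hL y (by simp))
    | [x, y, z], _, hL =>
      simpa [mul_assoc] using e3 x (hL x (by simp)) y (hL y (by simp)) z (hL z (by simp))
    | x :: y :: z :: t :: r, hl, hL =>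
      have hx : x ∈ L := hL x (by simp)
      have hy : y ∈ L := hL y (by simp)
      have hz : z ∈ L := hL z (by simp)
      have ht : t ∈ L := hL t (by simp)
      have hr : ∀ a ∈ r, a ∈ L := fun a ha => hL a (by simp [ha])
      simp only [List.length_cons] at hl
      -- swapping two neighbours does not change the sandwich
      have sw1 : ∀ a ∈ L, ∀ b ∈ L, ∀ c ∈ L, ∀ d ∈ L,
          E * (a * b * c * d * r.prod) * E = E * (b * a * c * d * r.prod) * E := by
        intro a ha b hb c hc d hd
        have := ih (n - 1) (by omega) ((a * b - b * a) :: c :: d :: r)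
          (by simp only [List.length_cons]; omega)
          (by
            intro k hk
            simp only [List.mem_cons] at hk
            rcases hk with rfl | rfl | rfl | hk
            · exact hbr a ha b hb
            · exact hc
            · exact hd
            · exact hr k hk)
        simp only [List.prod_cons] at this
        rw [← sub_eq_zero, ← this]
        noncomm_ring
      have sw2 : ∀ a ∈ L, ∀ b ∈ L, ∀ c ∈ L, ∀ d ∈ L,
          E * (a * b * c * d * r.prod) * E = E * (a * c * b * d * r.prod) * E := by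
        intro a ha b hb c hc d hd
        have := ih (n - 1) (by omega) (a :: (b * c - c * b) :: d :: r)
          (by simp only [List.length_cons]; omega)
          (by
            intro k hk
            simp only [List.mem_cons] at hk
            rcases hk with rfl | rfl | rfl | hk
            · exact ha
            · exact hbr b hb c hc
            · exact hd
            · exact hr k hk)
        simp only [List.prod_cons] at this
        rw [← sub_eq_zero, ← this]
        noncomm_ring
      have sw3 : ∀ a ∈ L, ∀ b ∈ L, ∀ c ∈ L, ∀ d ∈ L,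
          E * (a * b * c * d * r.prod) * E = E * (a * b * d * c * r.prod) * E := by
        intro a ha b hb c hc d hd
        have := ih (n - 1) (by omega) (a :: b :: (c * d - d * c) :: r)
          (by simp only [List.length_cons]; omega)
          (by
            intro k hk
            simp only [List.mem_cons] at hk
            rcases hk with rfl | rfl | rfl | hk
            · exact ha
            · exact hb
            · exact hbr c hc d hd
            · exact hr k hk)
        simp only [List.prod_cons] at this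
        rw [← sub_eq_zero, ← this]
        noncomm_ring
      let F : A → A → A → A → A := fun a b c d => E * (a * b * c * d * r.prod) * E
      have F1 : ∀ a ∈ L, ∀ b ∈ L, ∀ c ∈ L, ∀ d ∈ L, F a b c d = F b a c d := sw1
      have F2 : ∀ a ∈ L, ∀ b ∈ L, ∀ c ∈ L, ∀ d ∈ L, F a b c d = F a c b d := sw2
      have F3 : ∀ a ∈ L, ∀ b ∈ L, ∀ c ∈ L, ∀ d ∈ L, F a b c d = F a b d c := sw3
      have hsum : F x y z t + F x y t z + F x z y t + F x z t y + F x t y z + F x t z y
          + (F y x z t + F y x t z + F y z x t + F y z t x + F y t x z + F y t z x)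
          + (F z x y t + F z x t y + F z y x t + F z y t x + F z t x y + F z t y x)
          + (F t x y z + F t x z y + F t y x z + F t y z x + F t z x y + F t z y x) = 0 := by
        have h1 : E * (S4 x y z t * r.prod) * E = 0 := by
          rw [hs4 x hx y hy z hz t ht]; simp
        rw [← h1]
        simp only [F, S4]
        noncomm_ring
      have a1 : F x y t z = F x y z t := F3 x hx y hy t ht z hz
      have a2 : F x z y t = F x y z t := F2 x hx z hz y hy t ht
      have a3 : F x z t y = F x y z t := by rw [F3 x hx z hz t ht y hy, a2]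
      have a4 : F x t y z = F x y z t := by rw [F2 x hx t ht y hy z hz, a1]
      have a5 : F x t z y = F x y z t := by rw [F3 x hx t ht z hz y hy, a4]
      have b0 : F y x z t = F x y z t := F1 y hy x hx z hz t ht
      have b1 : F y x t z = F x y z t := by rw [F1 y hy x hx t ht z hz, a1]
      have b2 : F y z x t = F x y z t := by rw [F2 y hy z hz x hx t ht, b0]
      have b3 : F y z t x = F x y z t := by rw [F3 y hy z hz t ht x hx, b2]
      have b4 : F y t x z = F x y z t := by rw [F2 y hy t ht x hx z hz, b1]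
      have b5 : F y t z x = F x y z t := by rw [F3 y hy t ht z hz x hx, b4]
      have c0 : F z x y t = F x y z t := by rw [F1 z hz x hx y hy t ht, a2]
      have c1 : F z x t y = F x y z t := by rw [F1 z hz x hx t ht y hy, a3]
      have c2 : F z y x t = F x y z t := by rw [F1 z hz y hy x hx t ht, b2]
      have c3 : F z y t x = F x y z t := by rw [F1 z hz y hy t ht x hx, b3]
      have c4 : F z t x y = F x y z t := by rw [F2 z hz t ht x hx y hy, c1]
      have c5 : F z t y x = F x y z t := by rw [F3 z hz t ht y hy x hx, c4]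
      have d0 : F t x y z = F x y z t := by rw [F1 t ht x hx y hy z hz, a4]
      have d1 : F t x z y = F x y z t := by rw [F1 t ht x hx z hz y hy, a5]
      have d2 : F t y x z = F x y z t := by rw [F1 t ht y hy x hx z hz, b4]
      have d3 : F t y z x = F x y z t := by rw [F1 t ht y hy z hz x hx, b5]
      have d4 : F t z x y = F x y z t := by rw [F1 t ht z hz x hx y hy, c4]
      have d5 : F t z y x = F x y z t := by rw [F1 t ht z hz y hy x hx, c5]
      rw [a1, a2, a3, a4, a5, b0, b1, b2, b3, b4, b5, c0, c1, c2, c3, c4, c5, d0, d1, d2, d3,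
        d4, d5] at hsum
      have h24 : (24 : ℕ) • F x y z t = 0 := by rw [← hsum]; abel
      have := c24_cancel h5 h24
      simp only [F] at this
      rw [← this]
      simp only [List.prod_cons, mul_assoc]

/-- In a prime-like ring an element as in `sandwich` vanishes. -/
lemma sandwich_zero [Group.FG Γ] {ρ : Γ →* A} (hP : PrimeLike ρ) (hN : ¬ Nil ρ)
    {L : AddSubgroup A} (hL : LieW ρ L) (l₀ : List A) (hl₀ : l₀ ≠ []) (hl₀L : ∀ x ∈ l₀, x ∈ L)
    (e0 : l₀.prod * l₀.prod = 0) (e1 : ∀ x ∈ L, l₀.prod * x * l₀.prod = 0)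
    (e2 : ∀ x ∈ L, ∀ y ∈ L, l₀.prod * (x * y) * l₀.prod = 0)
    (e3 : ∀ x ∈ L, ∀ y ∈ L, ∀ z ∈ L, l₀.prod * (x * y * z) * l₀.prod = 0) : l₀.prod = 0 := by
  let P : Set A := {x | ∃ l : List A, l ≠ [] ∧ (∀ y ∈ l, y ∈ L) ∧ x = l.prod}
  have hinv : ∀ g : Γ, ρ g⁻¹ * ρ g = 1 := fun g => by rw [← map_mul, inv_mul_cancel, map_one]
  have hinv' : ∀ g : Γ, ρ g * ρ g⁻¹ = 1 := fun g => by rw [← map_mul, mul_inv_cancel, map_one]
  have hconj : ∀ (g : Γ) (l : List A),
      ρ g * l.prod * ρ g⁻¹ = (l.map (fun x => ρ g * x * ρ g⁻¹)).prod := by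
    intro g l
    induction l with
    | nil => simp [hinv']
    | cons x t ih =>
      rw [List.map_cons, List.prod_cons, List.prod_cons, ← ih]
      have : ρ g * x * ρ g⁻¹ * (ρ g * t.prod * ρ g⁻¹)
          = ρ g * x * (ρ g⁻¹ * ρ g) * t.prod * ρ g⁻¹ := by noncomm_ring
      rw [this, hinv]; noncomm_ring
  refine pstar ρ hP hN (AddSubgroup.closure P : Set A) ?_ ?_ l₀.prod
    (AddSubgroup.subset_closure ⟨l₀, hl₀, hl₀L, rfl⟩) e0 ?_
  · intro g b hb
    have hb' : b ∈ AddSubgroup.closure P := hb
    show _ ∈ AddSubgroup.closure P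
    clear hb
    induction hb' using AddSubgroup.closure_induction with
    | mem x hx =>
      obtain ⟨l, hl, hlL, rfl⟩ := hx
      rw [hconj]
      refine AddSubgroup.subset_closure ⟨_, by simpa using hl, ?_, rfl⟩
      intro y hy
      obtain ⟨x, hx, rfl⟩ := List.mem_map.1 hy
      exact hL.inv g x (hlL x hx)
    | zero => simp
    | add x y _ _ hx hy => rw [mul_add, add_mul]; exact AddSubgroup.add_mem _ hx hy
    | neg x _ hx => rw [mul_neg, neg_mul]; exact AddSubgroup.neg_mem _ hx
  · intro b hb b' hb'
    have hb1 : b ∈ AddSubgroup.closure P := hb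
    have hb2 : b' ∈ AddSubgroup.closure P := hb'
    show _ ∈ AddSubgroup.closure P
    clear hb hb'
    induction hb1 using AddSubgroup.closure_induction with
    | mem x hx =>
      obtain ⟨l, hl, hlL, rfl⟩ := hx
      induction hb2 using AddSubgroup.closure_induction with
      | mem y hy =>
        obtain ⟨l', hl', hlL', rfl⟩ := hy
        refine AddSubgroup.subset_closure ⟨l ++ l', by simp [hl], ?_, by simp⟩
        intro y hy
        rcases List.mem_append.1 hy with h | h
        · exact hlL y h
        · exact hlL' y h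
      | zero => simp
      | add x y _ _ hx hy => rw [mul_add]; exact AddSubgroup.add_mem _ hx hy
      | neg x _ hx => rw [mul_neg]; exact AddSubgroup.neg_mem _ hx
    | zero => simp
    | add x y _ _ hx hy => rw [add_mul]; exact AddSubgroup.add_mem _ hx hy
    | neg x _ hx => rw [neg_mul]; exact AddSubgroup.neg_mem _ hx
  · intro b hb
    have hb1 : b ∈ AddSubgroup.closure P := hb
    clear hb
    induction hb1 using AddSubgroup.closure_induction with
    | mem x hx =>
      obtain ⟨l, hl, hlL, rfl⟩ := hx
      exact sandwich h5 hL.br hL.s4 _ e0 e1 e2 e3 l.length l rfl hlL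
    | zero => simp
    | add x y _ _ hx hy => rw [mul_add, add_mul, hx, hy, add_zero]
    | neg x _ hx => rw [mul_neg, neg_mul, hx, neg_zero]

/-- (D2L), special case. -/
lemma D2L_aux [Group.FG Γ] {ρ : Γ →* A} (hP : PrimeLike ρ) (hN : ¬ Nil ρ)
    {L : AddSubgroup A} (hL : LieW ρ L) {a : A} (ha : a ∈ L) (h2 : a * a = 0)
    (h3 : ∀ x ∈ L, a * x * a = 0) : a = 0 := by
  have e2 : ∀ x ∈ L, ∀ y ∈ L, a * (x * y) * a = 0 := by
    intro x hx y hy
    have k1 := hL.s4 a ha a ha x hx y hy
    have k2 := h3 _ (hL.br x hx y hy)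
    have kx := h3 x hx
    have ky := h3 y hy
    have s : (2 : ℕ) • (a * x * y * a + a * y * x * a) = 0 := by
      have : (2 : ℕ) • (a * x * y * a + a * y * x * a) = S4 a a x y
          - ((2 : ℕ) • (a * a * x * y + a * a * y * x + (a * x * a) * y + (a * y * a) * x
            + x * (a * a) * y + y * (a * a) * x + x * (a * y * a) + y * (a * x * a)
            + x * y * (a * a) + y * x * (a * a))) := by
        simp only [S4]; noncomm_ring
      rw [this, k1, h2, kx, ky]; simp
    have s1 := two_cancel h5 s
    have s2 : a * x * y * a - a * y * x * a = 0 := by rw [← k2]; noncomm_ring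
    have s3 : (2 : ℕ) • (a * x * y * a) = 0 := by
      have : (2 : ℕ) • (a * x * y * a) = (a * x * y * a + a * y * x * a)
        + (a * x * y * a - a * y * x * a) := by abel
      rw [this, s1, s2, add_zero]
    have s4 := two_cancel h5 s3
    rw [← s4]; noncomm_ring
  have e3 : ∀ x ∈ L, ∀ y ∈ L, ∀ z ∈ L, a * (x * y * z) * a = 0 := by
    intro x hx y hy z hz
    let G : A → A → A → A := fun x y z => a * (x * y * z) * a
    have G1 : ∀ x ∈ L, ∀ y ∈ L, ∀ z ∈ L, G x y z = G y x z := by
      intro x hx y hy z hz
      have := e2 _ (hL.br x hx y hy) z hz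
      rw [← sub_eq_zero, ← this]; simp only [G]; noncomm_ring
    have G2 : ∀ x ∈ L, ∀ y ∈ L, ∀ z ∈ L, G x y z = G x z y := by
      intro x hx y hy z hz
      have := e2 x hx _ (hL.br y hy z hz)
      rw [← sub_eq_zero, ← this]; simp only [G]; noncomm_ring
    have g1 : G x z y = G x y z := G2 x hx z hz y hy
    have g2 : G y x z = G x y z := G1 y hy x hx z hz
    have g3 : G y z x = G x y z := by rw [G2 y hy z hz x hx, g2]
    have g4 : G z x y = G x y z := by rw [G1 z hz x hx y hy, g1]
    have g5 : G z y x = G x y z := by rw [G2 z hz y hy x hx, g4]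
    have k1 := hL.s4 a ha x hx y hy z hz
    have kx := e2 x hx y hy
    have hsum : G x y z + G x z y + G y x z + G y z x + G z x y + G z y x = 0 := by
      have : G x y z + G x z y + G y x z + G y z x + G z x y + G z y x = S4 a x y z * a
          - (x * (a * (y * z) * a) + x * (a * (z * y) * a) + x * y * (a * z * a)
            + x * z * (a * y * a) + x * y * z * (a * a) + x * z * y * (a * a)
            + (y * (a * (x * z) * a) + y * (a * (z * x) * a) + y * x * (a * z * a)
            + y * z * (a * x * a) + y * x * z * (a * a) + y * z * x * (a * a))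
            + (z * (a * (x * y) * a) + z * (a * (y * x) * a) + z * x * (a * y * a)
            + z * y * (a * x * a) + z * x * y * (a * a) + z * y * x * (a * a))) := by
        simp only [S4, G]; noncomm_ring
      rw [this, k1, h2, e2 y hy z hz, e2 z hz y hy, e2 x hx z hz, e2 z hz x hx, e2 x hx y hy,
        e2 y hy x hx, h3 x hx, h3 y hy, h3 z hz]
      simp
    rw [g1, g2, g3, g4, g5] at hsum
    have h24 : (24 : ℕ) • G x y z = 0 := by
      have : (24 : ℕ) • G x y z = (4 : ℕ) • (G x y z + G x y z + G x y z + G x y z + G x y z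
        + G x y z) := by abel
      rw [this, hsum]; simp
    exact c24_cancel h5 h24
  have := sandwich_zero h5 hP hN hL [a] (by simp) (by simpa using ha) (by simpa using h2)
    (by simpa using h3) (by simpa using e2) (by simpa using e3)
  simpa using this

/-- (D2L) -/
theorem D2L [Group.FG Γ] {ρ : Γ →* A} (hP : PrimeLike ρ) (hN : ¬ Nil ρ)
    {L : AddSubgroup A} (hL : LieW ρ L) {z : A} (hz : z ∈ L) (h2 : z * z = 0) : z = 0 := by
  have hzx : ∀ x ∈ L, z * x * z ∈ L := by
    intro x hx
    have h1 := hL.br _ (hL.br z hz x hx) z hz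
    have : (2 : ℕ) • (z * x * z) = ((z * x - x * z) * z - z * (z * x - x * z))
        + (x * (z * z) + (z * z) * x) := by noncomm_ring
    refine two_mem h5 L ?_
    rw [this, h2]; simpa using h1
  have hpol : ∀ x ∈ L, ∀ y ∈ L, z * x * z * y * z = - (z * y * z * x * z) := by
    intro x hx y hy
    have k1 := hL.s4 z hz z hz x hx y hy
    have : (2 : ℕ) • (z * x * z * y * z + z * y * z * x * z) = z * S4 z z x y
        - (2 : ℕ) • (z * z * z * x * y + z * z * z * y * x + z * z * x * z * y
          + z * z * y * z * x + z * x * (z * z) * y + z * y * (z * z) * x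
          + z * x * y * (z * z) + z * y * x * (z * z) + z * z * x * y * z
          + z * z * y * x * z) := by
      simp only [S4]; noncomm_ring
    have h3 : (2 : ℕ) • (z * x * z * y * z + z * y * z * x * z) = 0 := by
      rw [this, k1, h2]; simp
    exact eq_neg_of_add_eq_zero_left (two_cancel h5 h3)
  have hself : ∀ x ∈ L, z * x * z * x * z = 0 := by
    intro x hx
    have := hpol x hx x hx
    refine two_cancel h5 ?_
    rw [two_nsmul]
    nth_rewrite 1 [this]
    simp
  have hz0 : ∀ x ∈ L, z * x * z = 0 := by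
    intro x hx
    refine D2L_aux h5 hP hN hL (hzx x hx) ?_ ?_
    · have : z * x * z * (z * x * z) = z * x * (z * z) * x * z := by noncomm_ring
      rw [this, h2]; simp
    · intro y hy
      have : z * x * z * y * (z * x * z) = (z * x * z * y * z) * x * z := by noncomm_ring
      rw [this, hpol x hx y hy]
      have : -(z * y * z * x * z) * x * z = - (z * y * (z * x * z * x * z)) := by noncomm_ring
      rw [this, hself x hx]; simp
  exact D2L_aux h5 hP hN hL hz h2 hz0

/-- (D3L) -/
theorem D3L [Group.FG Γ] {ρ : Γ →* A} (hP : PrimeLike ρ) (hN : ¬ Nil ρ)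
    {L : AddSubgroup A} (hL : LieW ρ L) {x : A} (hx : x ∈ L) (h3 : x * x * x = 0) : x = 0 := by
  -- x² y x + x y x² = 0
  have k1 : ∀ y ∈ L, x * x * y * x + x * y * x * x = 0 := by
    intro y hy
    have k := hL.s4 x hx x hx x hx y hy
    have : (24 : ℕ) • (x * x * y * x + x * y * x * x)
        = (4 : ℕ) • S4 x x x y - (24 : ℕ) • ((x * x * x) * y + y * (x * x * x)) := by
      simp only [S4]; noncomm_ring
    refine c24_cancel h5 ?_
    rw [this, k, h3]; simp
  have k2 : ∀ y ∈ L, x * x * y * (x * x) = 0 := by
    intro y hy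
    have : x * x * y * (x * x) = x * (x * x * y * x + x * y * x * x) - (x * x * x) * y * x := by
      noncomm_ring
    rw [this, k1 y hy, h3]; simp
  have hu : ∀ y ∈ L, x * x * y * x = 0 := by
    intro y hy
    have hm : x * x * y * x ∈ L := by
      have b1 := hL.br x hx y hy
      have b2 := hL.br x hx _ b1
      have b3 := hL.br x hx _ b2
      -- [x,[x,[x,y]]] = x³y - 3x²yx + 3xyx² - yx³ = -6x²yx
      have : x * x * y * x = (5 : ℕ) • (- (x * x * y * x))
          - ((x * (x * (x * y - y * x) - (x * y - y * x) * x)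
          - (x * (x * y - y * x) - (x * y - y * x) * x) * x)
          - (x * x * x) * y + y * (x * x * x) - (3 : ℕ) • (x * x * y * x + x * y * x * x)) := by
        noncomm_ring
      rw [this, five_smul h5, k1 y hy, h3]
      have b4 := L.neg_mem b3
      rw [smul_zero, zero_mul, mul_zero, sub_zero, sub_zero, add_zero, zero_sub]
      exact b4
    refine D2L h5 hP hN hL hm ?_
    have : x * x * y * x * (x * x * y * x) = x * x * y * (x * x * x) * y * x := by noncomm_ring
    rw [this, h3]; simp
  have hu' : ∀ y ∈ L, x * y * (x * x) = 0 := by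
    intro y hy
    have := k1 y hy
    rw [hu y hy, zero_add] at this
    rw [← this]; noncomm_ring
  have k3 : ∀ y ∈ L, x * x * (y * y) * (x * x) = 0 := by
    intro y hy
    have k := hL.s4 x hx x hx y hy y hy
    have : (24 : ℕ) • (x * x * (y * y) * (x * x)) = (6 : ℕ) • (x * S4 x x y y * x)
        - (24 : ℕ) • ((x * x * x) * y * y * x + (x * x * y * x) * y * x
          + (x * y * (x * x)) * y * x + x * y * (x * y * (x * x)) + x * y * y * (x * x * x)) := by
      simp only [S4]; noncomm_ring
    refine c24_cancel h5 ?_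
    rw [this, k, h3, hu y hy, hu' y hy]; simp
  have hw : ∀ y ∈ L, x * x * y - (2 : ℕ) • (x * y * x) + y * (x * x) = 0 := by
    intro y hy
    have hm : x * x * y - (2 : ℕ) • (x * y * x) + y * (x * x) ∈ L := by
      have b1 := hL.br x hx y hy
      have b2 := hL.br x hx _ b1
      have : x * x * y - (2 : ℕ) • (x * y * x) + y * (x * x)
          = x * (x * y - y * x) - (x * y - y * x) * x := by noncomm_ring
      rw [this]; exact b2
    refine D2L h5 hP hN hL hm ?_
    have : (x * x * y - (2 : ℕ) • (x * y * x) + y * (x * x))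
        * (x * x * y - (2 : ℕ) • (x * y * x) + y * (x * x))
        = (x * x * y * x) * x * y - (2 : ℕ) • ((x * x * y * x) * y * x)
          + x * x * (y * y) * (x * x)
          - (2 : ℕ) • ((x * y * (x * x)) * x * y) + (4 : ℕ) • ((x * y * (x * x)) * y * x)
          - (2 : ℕ) • (x * y * (x * y * (x * x)))
          + y * (x * x * x) * x * y - (2 : ℕ) • (y * (x * x * x) * y * x)
          + y * (x * x * y * x) * x := by noncomm_ring
    rw [this, h3, hu y hy, hu' y hy, k3 y hy]; simp
  -- E = x²
  have e2 : ∀ y ∈ L, ∀ z ∈ L, x * x * (y * z) * (x * x) = 0 := by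
    intro y hy z hz
    have s1 := k3 (y + z) (L.add_mem hy hz)
    have s2 := k3 y hy
    have s3 := k3 z hz
    have s4 := k2 _ (hL.br y hy z hz)
    have : (2 : ℕ) • (x * x * (y * z) * (x * x)) = x * x * ((y + z) * (y + z)) * (x * x)
        - x * x * (y * y) * (x * x) - x * x * (z * z) * (x * x)
        + x * x * (y * z - z * y) * (x * x) := by noncomm_ring
    refine two_cancel h5 ?_
    rw [this, s1, s2, s3, s4]; simp
  have e3 : ∀ y ∈ L, ∀ z ∈ L, ∀ t ∈ L, x * x * (y * z * t) * (x * x) = 0 := by
    intro y hy z hz t ht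
    let G : A → A → A → A := fun y z t => x * x * (y * z * t) * (x * x)
    have G1 : ∀ y ∈ L, ∀ z ∈ L, ∀ t ∈ L, G y z t = G z y t := by
      intro y hy z hz t ht
      have := e2 _ (hL.br y hy z hz) t ht
      rw [← sub_eq_zero, ← this]; simp only [G]; noncomm_ring
    have G2 : ∀ y ∈ L, ∀ z ∈ L, ∀ t ∈ L, G y z t = G y t z := by
      intro y hy z hz t ht
      have := e2 y hy _ (hL.br z hz t ht)
      rw [← sub_eq_zero, ← this]; simp only [G]; noncomm_ring
    have g1 : G y t z = G y z t := G2 y hy t ht z hz
    have g2 : G z y t = G y z t := G1 z hz y hy t ht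
    have g3 : G z t y = G y z t := by rw [G2 z hz t ht y hy, g2]
    have g4 : G t y z = G y z t := by rw [G1 t ht y hy z hz, g1]
    have g5 : G t z y = G y z t := by rw [G2 t ht z hz y hy, g4]
    -- x (a x b c) x² = 3 G a b c,   x (a b x c) x² = 0
    have p2 : ∀ a ∈ L, ∀ b ∈ L, ∀ c ∈ L, (2 : ℕ) • (x * (a * x * b * c) * (x * x)) = G a b c := by
      intro a ha b hb c hc
      have s1 := hw a ha
      have s2 := e2 b hb c hc
      have : (2 : ℕ) • (x * (a * x * b * c) * (x * x)) = G a b c + a * (x * x * (b * c) * (x * x))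
          - (x * x * a - (2 : ℕ) • (x * a * x) + a * (x * x)) * (b * c * (x * x)) := by
        simp only [G]; noncomm_ring
      rw [this, s1, s2]; simp
    have p3 : ∀ a ∈ L, ∀ b ∈ L, ∀ c ∈ L, x * (a * b * x * c) * (x * x) = 0 := by
      intro a ha b hb c hc
      have s1 := hu' c hc
      have : x * (a * b * x * c) * (x * x) = x * a * b * (x * c * (x * x)) := by noncomm_ring
      rw [this, s1]; simp
    have k := hL.s4 x hx y hy z hz t ht
    have hsum : (24 : ℕ) • G y z t = 0 := by
      have : (2 : ℕ) • (x * S4 x y z t * (x * x))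
          = (2 : ℕ) • (G y z t + G y t z + G z y t + G z t y + G t y z + G t z y)
          + ((2 : ℕ) • (x * (y * x * z * t) * (x * x)) + (2 : ℕ) • (x * (y * x * t * z) * (x * x))
            + (2 : ℕ) • (x * (z * x * y * t) * (x * x)) + (2 : ℕ) • (x * (z * x * t * y) * (x * x))
            + (2 : ℕ) • (x * (t * x * y * z) * (x * x)) + (2 : ℕ) • (x * (t * x * z * y) * (x * x)))
          + (2 : ℕ) • (x * (y * z * x * t) * (x * x) + x * (y * t * x * z) * (x * x)
            + x * (z * y * x * t) * (x * x) + x * (z * t * x * y) * (x * x)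
            + x * (t * y * x * z) * (x * x) + x * (t * z * x * y) * (x * x))
          + (2 : ℕ) • ((x * y * z * t + x * y * t * z + x * z * y * t + x * z * t * y
            + x * t * y * z + x * t * z * y) * (x * x * x)) := by
        simp only [S4, G]; noncomm_ring
      rw [k, h3, p2 y hy z hz t ht, p2 y hy t ht z hz, p2 z hz y hy t ht, p2 z hz t ht y hy,
        p2 t ht y hy z hz, p2 t ht z hz y hy, p3 y hy z hz t ht, p3 y hy t ht z hz,
        p3 z hz y hy t ht, p3 z hz t ht y hy, p3 t ht y hy z hz, p3 t ht z hz y hy,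
        g1, g2, g3, g4, g5] at this
      have h18 : (18 : ℕ) • G y z t = 0 := by
        rw [mul_zero, zero_mul, smul_zero] at this
        rw [this]; simp only [mul_zero, add_zero]; abel
      have : (24 : ℕ) • G y z t = (3 : ℕ) • ((18 : ℕ) • G y z t)
          - (6 : ℕ) • ((5 : ℕ) • G y z t) := by
        rw [← mul_nsmul, ← mul_nsmul]; abel
      rw [this, h18, five_smul h5]; simp
    exact c24_cancel h5 hsum
  have hE := sandwich_zero h5 hP hN hL [x, x] (by simp) (by simpa using hx)
    (by simp only [List.prod_cons, List.prod_nil, mul_one]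
        have : x * x * (x * x) = x * x * x * x := by noncomm_ring
        rw [this, h3]; simp)
    (by simpa using k2) (by simpa using e2) (by simpa using e3)
  exact D2L h5 hP hN hL hx (by simpa using hE)

end

end Pool.Agent.Work.MP_d7201b_al.LN
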