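import Pool.Agent.Work.MP_d7201b_al_LN.Main
import Pool.Agent.Work.MP_d7201b_al_LN31.Cubic
import Pool.Agent.Work.MP_d7201b_al_T2.InstA

/-!
# Nilpotent action from local nilpotence

The finitely generated subgroup `H` acts on the functions `θ 1 z`, `z ∈ N`, modulo `5`, with
`(h - 1) ^ 4 = 0`.
-/

set_option autoImplicit false

namespace Pool.Agent.Work.MP_d7201b_al.LN

open T2 MulOpposite

universe u

/-- LN for the opposite of an endomorphism ring. -/
theorem ln_opp (hFin : FinStmt.{u}) {H : Type u} [Group H] [Group.FG H]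
    {V : Type u} [AddCommGroup V] (σ : H →* (AddMonoid.End V)ᵐᵒᵖ)
    (h5 : (5 : (AddMonoid.End V)ᵐᵒᵖ) = 0)
    (h4 : ∀ g, (σ g - 1) * ((σ g - 1) * ((σ g - 1) * (σ g - 1))) = 0) :
    ∃ n, ∀ L : List H, L.length = n → (L.map fun g => σ g - 1).prod = 0 := by
  obtain ⟨n, hn⟩ := LN_of_fin hFin σ h5 (fun g => by
    rw [pow_succ, pow_succ, pow_succ, pow_one, mul_assoc, mul_assoc]; exact h4 g)
  exact ⟨n, fun L hL => hn L hL⟩

section

variable {G : Type u} [Group G] {x : G} {c : ℕ}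
  (hc : (Subgroup.normalClosure {x}).lowerCentralSeries (c + 1) = ⊥)

theorem th_add {z z' : G} (hz : z ∈ Subgroup.normalClosure {x})
    (hz' : z' ∈ Subgroup.normalClosure {x}) :
    (baseSys hc).θ 1 (z * z') = (baseSys hc).θ 1 z + (baseSys hc).θ 1 z' :=
  (baseSys hc).mul le_rfl hz hz'

theorem th_neg {z : G} (hz : z ∈ Subgroup.normalClosure {x}) :
    (baseSys hc).θ 1 z⁻¹ = - (baseSys hc).θ 1 z :=
  Sys.inv _ le_rfl hz

/-- the iterated commutator -/
theorem th_fold (γs : List G) : ∀ {z : G}, z ∈ Subgroup.normalClosure {x} →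
    (γs.foldl comm z) ∈ Subgroup.normalClosure {x} ∧
    (baseSys hc).θ 1 (γs.foldl comm z) =
      ap ((baseSys hc).θ 1 z) ((γs.map fun γ => uR hc γ - 1).prod) := by
  induction γs with
  | nil => intro z hz; exact ⟨hz, rfl⟩
  | cons γ γs ih =>
    intro z hz
    have hz' : comm z γ ∈ Subgroup.normalClosure {x} := by
      have e : comm z γ = z⁻¹ * (γ⁻¹ * z * γ⁻¹⁻¹) := by unfold comm; group
      rw [e]
      exact mul_mem (inv_mem hz) (Subgroup.normalClosure_normal.conj_mem z hz γ⁻¹)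
    obtain ⟨h1, h2⟩ := ih hz'
    refine ⟨h1, ?_⟩
    rw [List.foldl_cons, h2, th_comm hc hz, List.map_cons, List.prod_cons, ap_mul]

/-- The relation `(h - 1) ^ 4 = 0` on all `θ 1 z`. -/
theorem quart_N (he : IsRightEngel 4 x) (h : G) {z : G} (hz : z ∈ Subgroup.normalClosure {x}) :
    ap ((baseSys hc).θ 1 z) ((uR hc h - 1) * ((uR hc h - 1) * ((uR hc h - 1) *
      (uR hc h - 1)))) = 0 := by
  have hz' := hz
  unfold Subgroup.normalClosure at hz'
  induction hz' using Subgroup.closure_induction with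
  | mem z hz1 =>
    obtain ⟨y, hy, hg⟩ := Group.mem_conjugatesOfSet_iff.1 hz1
    obtain ⟨g, hg⟩ := isConj_iff.1 hg
    rw [Set.mem_singleton_iff] at hy
    subst hy
    -- z = g y g⁻¹
    have h1 := (th_fold hc [h, h, h, h] hz).2
    simp only [List.map_cons, List.map_nil, List.prod_cons, List.prod_nil, mul_one] at h1
    rw [← h1]
    have h2 : ∀ k, engel z h k = g * engel y (g⁻¹ * h * g) k * g⁻¹ := by
      intro k
      induction k with
      | zero => exact hg.symm
      | succ k ih =>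
        show comm (engel z h k) h = g * comm (engel y (g⁻¹ * h * g) k) (g⁻¹ * h * g) * g⁻¹
        rw [ih]; unfold comm; group
    have h3 : List.foldl comm z [h, h, h, h] = engel z h 4 := rfl
    rw [h3, h2, he]
    rw [show (g : G) * 1 * g⁻¹ = 1 by group]
    exact Sys.one _ le_rfl
  | one =>
    rw [Sys.one _ le_rfl]; exact zero_ap _
  | mul z z' h1 h2 ih1 ih2 =>
    rw [th_add hc h1 h2, add_ap, ih1 h1, ih2 h2, add_zero]
  | inv z h1 ih1 =>
    rw [th_neg hc h1, neg_ap, ih1 h1, neg_zero]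

/-- all `θ 1 z` -/
def VV : AddSubgroup (List G → Last (Subgroup.normalClosure {x}) c hc) where
  carrier := {f | ∃ z ∈ Subgroup.normalClosure {x}, f = (baseSys hc).θ 1 z}
  zero_mem' := ⟨1, one_mem _, (Sys.one _ le_rfl).symm⟩
  add_mem' := by
    rintro f g ⟨z, hz, rfl⟩ ⟨z', hz', rfl⟩
    exact ⟨z * z', mul_mem hz hz', (th_add hc hz hz').symm⟩
  neg_mem' := by
    rintro f ⟨z, hz, rfl⟩
    exact ⟨z⁻¹, inv_mem hz, (th_neg hc hz).symm⟩

theorem VV_op (g : G) {f : List G → Last (Subgroup.normalClosure {x}) c hc} (hf : f ∈ VV hc) :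
    opG hc g f ∈ VV hc := by
  obtain ⟨z, hz, rfl⟩ := hf
  have h1 := th_comm hc hz g
  rw [ap_sub, ap_one, ap_u] at h1
  have h2 : opG hc g ((baseSys hc).θ 1 z) = (baseSys hc).θ 1 (comm z g) + (baseSys hc).θ 1 z := by
    rw [h1]; abel
  rw [h2]
  have hz' : comm z g ∈ Subgroup.normalClosure {x} := (th_fold hc [g] hz).1
  exact (VV hc).add_mem ⟨_, hz', rfl⟩ ⟨_, hz, rfl⟩

/-- the action on `VV` -/
def opV (g : G) : VV hc →+ VV hc :=
  ((opG hc g).comp (VV hc).subtype).codRestrict (VV hc) (fun f => VV_op hc g f.2)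

theorem opV_coe (g : G) (f : VV hc) : ((opV hc g f : VV hc) : List G → _) = opG hc g f := rfl

/-- `VV` modulo `5` -/
abbrev V5 : Type u := VV hc ⧸ ((F5 hc).addSubgroupOf (VV hc))

/-- the action on `V5` -/
def op5 (g : G) : V5 hc →+ V5 hc :=
  QuotientAddGroup.map _ _ (opV hc g) (by
    intro f hf
    rw [AddSubgroup.mem_comap, AddSubgroup.mem_addSubgroupOf, opV_coe]
    exact F5_op hc (AddSubgroup.mem_addSubgroupOf.1 hf) g)

theorem op5_mk (g : G) (f : VV hc) :
    op5 hc g (QuotientAddGroup.mk f) = QuotientAddGroup.mk (opV hc g f) := rfl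

/-- the representation -/
def rho5 : G →* (AddMonoid.End (V5 hc))ᵐᵒᵖ where
  toFun g := op (op5 hc g : AddMonoid.End (V5 hc))
  map_one' := by
    apply unop_injective
    refine AddMonoidHom.ext fun F => ?_
    obtain ⟨f, rfl⟩ := QuotientAddGroup.mk_surjective F
    show op5 hc 1 (QuotientAddGroup.mk f) = QuotientAddGroup.mk f
    rw [op5_mk]
    congr 1
    exact Subtype.ext (opG_one hc f.1)
  map_mul' g h := by
    apply unop_injective
    refine AddMonoidHom.ext fun F => ?_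
    obtain ⟨f, rfl⟩ := QuotientAddGroup.mk_surjective F
    show op5 hc (g * h) (QuotientAddGroup.mk f) = op5 hc h (op5 hc g (QuotientAddGroup.mk f))
    rw [op5_mk, op5_mk, op5_mk]
    congr 1
    exact Subtype.ext (opG_mul hc g h f.1)

theorem ext5 {r s : (AddMonoid.End (V5 hc))ᵐᵒᵖ}
    (h : ∀ f : VV hc, r.unop (QuotientAddGroup.mk f) = s.unop (QuotientAddGroup.mk f)) : r = s := by
  apply unop_injective
  refine AddMonoidHom.ext fun F => ?_
  obtain ⟨f, rfl⟩ := QuotientAddGroup.mk_surjective F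
  exact h f

theorem five_unop (f : VV hc) : (5 : (AddMonoid.End (V5 hc))ᵐᵒᵖ).unop (QuotientAddGroup.mk f) =
    (QuotientAddGroup.mk ((5 : ℕ) • f) : V5 hc) := by
  have e1 : (5 : (AddMonoid.End (V5 hc))ᵐᵒᵖ) = ((5 : ℕ) : (AddMonoid.End (V5 hc))ᵐᵒᵖ) := rfl
  rw [e1]
  rfl

theorem rho5_sub_one (g : G) (f : VV hc) :
    (rho5 hc g - 1).unop (QuotientAddGroup.mk f) =
      (QuotientAddGroup.mk (opV hc g f - f) : V5 hc) := rfl

theorem unop_mul_apply (r s : (AddMonoid.End (V5 hc))ᵐᵒᵖ) (v : V5 hc) :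
    (r * s).unop v = s.unop (r.unop v) := rfl

theorem rho5_dp (l : List G) : ∀ {z : G} (hz : z ∈ Subgroup.normalClosure {x}),
    ((l.map fun g => rho5 hc g - 1).prod).unop
      (QuotientAddGroup.mk (⟨(baseSys hc).θ 1 z, z, hz, rfl⟩ : VV hc) : V5 hc) =
      QuotientAddGroup.mk (⟨(baseSys hc).θ 1 (l.foldl comm z), l.foldl comm z,
        (th_fold hc l hz).1, rfl⟩ : VV hc) := by
  induction l with
  | nil => intro z hz; rfl
  | cons g l ih =>
    intro z hz
    rw [List.map_cons, List.prod_cons, unop_mul_apply, rho5_sub_one]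
    have hz' : comm z g ∈ Subgroup.normalClosure {x} := (th_fold hc [g] hz).1
    have e : opV hc g ⟨(baseSys hc).θ 1 z, z, hz, rfl⟩ - ⟨(baseSys hc).θ 1 z, z, hz, rfl⟩
        = (⟨(baseSys hc).θ 1 (comm z g), comm z g, hz', rfl⟩ : VV hc) := by
      apply Subtype.ext
      have h1 := th_comm hc hz g
      rw [ap_sub, ap_one, ap_u] at h1
      exact h1.symm
    rw [e, ih hz']
    rfl

/-- The action is nilpotent. -/
theorem nilAct_of (hFin : FinStmt.{u}) (he : IsRightEngel 4 x) (a : G) (l : List G) :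
    T2.NilAct hc (Subgroup.closure (insert a {g | g ∈ l})) := by
  set H : Subgroup G := Subgroup.closure (insert a {g | g ∈ l}) with hH
  have : Group.FG H := by
    rw [Group.fg_iff_subgroup_fg, Subgroup.fg_iff]
    exact ⟨_, rfl, (List.finite_toSet l).insert a⟩
  have h5 : (5 : (AddMonoid.End (V5 hc))ᵐᵒᵖ) = 0 := by
    refine ext5 hc fun f => (five_unop hc f).trans ?_
    refine (QuotientAddGroup.eq_zero_iff _).2 ?_
    rw [AddSubgroup.mem_addSubgroupOf]
    intro r
    exact ⟨f.1 r, rfl⟩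
  let σ : H →* (AddMonoid.End (V5 hc))ᵐᵒᵖ := (rho5 hc).comp H.subtype
  have h4 : ∀ g, (σ g - 1) * ((σ g - 1) * ((σ g - 1) * (σ g - 1))) = 0 := by
    intro g
    refine ext5 hc ?_
    rintro ⟨_, z, hz, rfl⟩
    have e1 : (σ g - 1) * ((σ g - 1) * ((σ g - 1) * (σ g - 1))) =
        (([(g : G), g, g, g]).map fun g => rho5 hc g - 1).prod := by
      simp only [List.map_cons, List.map_nil, List.prod_cons, List.prod_nil, mul_one, σ,
        MonoidHom.comp_apply, Subgroup.coe_subtype]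
    rw [e1]
    refine (rho5_dp hc [(g : G), g, g, g] hz).trans ?_
    refine (QuotientAddGroup.eq_zero_iff _).2 ?_
    have h6 := (th_fold hc [(g : G), g, g, g] hz).2
    simp only [List.map_cons, List.map_nil, List.prod_cons, List.prod_nil, mul_one] at h6
    rw [AddSubgroup.mem_addSubgroupOf]
    show (baseSys hc).θ 1 _ ∈ F5 hc
    rw [h6, quart_N hc he g hz]
    exact (F5 hc).zero_mem
  obtain ⟨n, hn⟩ := ln_opp hFin σ h5 h4
  refine ⟨n, ?_⟩
  intro z hz γs hγ hlen r
  -- lift the list to `H`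
  obtain ⟨L, hL⟩ : ∃ L : List H, L.map (fun h : H => (h : G)) = γs := by
    lift γs to List H using hγ
    exact ⟨γs, rfl⟩
  have hLn : L.length = n := by rw [← hlen, ← hL, List.length_map]
  have h7 := hn L hLn
  have h8 : (L.map fun g => σ g - 1).prod = ((γs.map fun g => rho5 hc g - 1).prod) := by
    rw [← hL, List.map_map]; rfl
  have h9 := rho5_dp hc γs hz
  rw [← h8, h7] at h9
  have h10 : (QuotientAddGroup.mk (⟨(baseSys hc).θ 1 (γs.foldl comm z), γs.foldl comm z,
        (th_fold hc γs hz).1, rfl⟩ : VV hc) : V5 hc) = 0 := h9.symm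
  have h11 := (QuotientAddGroup.eq_zero_iff _).1 h10
  rw [AddSubgroup.mem_addSubgroupOf] at h11
  exact h11 r

end

end Pool.Agent.Work.MP_d7201b_al.LN
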