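import Pool.Agent.Work.MP_d7201b_al_LN31.Basic

/-!
# Local nilpotence, part 2: the lemma (P*)

`A` prime-like over a finitely generated group, `B` a subring (without unit) invariant under
conjugation, `E ∈ B` with `E * E = 0` and `E * B * E = 0`.  Then `E = 0`.
-/

namespace Pool.Agent.Work.MP_d7201b_al.LN

universe u v

variable {Γ : Type u} [Group Γ] {A : Type v} [Ring A]

omit [Group Γ] in
lemma finite_lists (S : Finset Γ) (n : ℕ) :
    {l : List Γ | (∀ s ∈ l, s ∈ (S : Set Γ)) ∧ l.length = n}.Finite := by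
  have : {l : List Γ | (∀ s ∈ l, s ∈ (S : Set Γ)) ∧ l.length = n}
      = ((fun f : Fin n → S => List.ofFn (fun i => (f i : Γ))) '' Set.univ) := by
    ext l
    constructor
    · rintro ⟨h1, h2⟩
      subst h2
      refine ⟨fun i => ⟨l.get i, by simpa using h1 _ (List.get_mem l i)⟩, trivial, ?_⟩
      simp
    · rintro ⟨f, -, rfl⟩
      refine ⟨?_, by simp⟩
      intro s hs
      rw [List.mem_ofFn] at hs
      obtain ⟨i, rfl⟩ := hs
      exact (f i).2
  rw [this]
  exact Set.finite_univ.image _

lemma exists_split_of_not_nodup {α : Type*} (l : List α) (h : ¬ l.Nodup) :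
    ∃ (a : List α) (x : α) (b c : List α), l = a ++ x :: (b ++ x :: c) := by
  classical
  induction l with
  | nil => simp at h
  | cons x t ih =>
    by_cases hx : x ∈ t
    · obtain ⟨b, c, rfl⟩ := List.append_of_mem hx
      exact ⟨[], x, b, c, rfl⟩
    · have : ¬ t.Nodup := fun h' => h (List.nodup_cons.2 ⟨hx, h'⟩)
      obtain ⟨a, y, b, c, rfl⟩ := ih this
      exact ⟨x :: a, y, b, c, rfl⟩

/-- The lemma (P*). -/
theorem pstar [Group.FG Γ] (ρ : Γ →* A) (hP : PrimeLike ρ) (hN : ¬ Nil ρ) (B : Set A)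
    (hB : ∀ g, ∀ b ∈ B, ρ g * b * ρ g⁻¹ ∈ B) (hBm : ∀ b ∈ B, ∀ b' ∈ B, b * b' ∈ B)
    (E : A) (hE : E ∈ B) (h1 : E * E = 0) (h2 : ∀ b ∈ B, E * b * E = 0) : E = 0 := by
  classical
  by_contra hE0
  obtain ⟨n, hn⟩ := hP E hE0
  obtain ⟨S, hS⟩ : ∃ S : Finset Γ, Submonoid.closure (S : Set Γ) = ⊤ :=
    (Monoid.fg_def.1 (Group.fg_iff_monoid_fg.1 inferInstance)).imp fun S hS => hS
  let e : Γ → A := fun h => ρ h⁻¹ * E * ρ h
  let M : Finset Γ → AddSubgroup A := fun J =>
    AddSubgroup.closure {x | ∃ g, ∃ h ∈ J, x = ρ g * e h}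
  have hMmono : ∀ J J' : Finset Γ, J ⊆ J' → M J ≤ M J' := by
    intro J J' hJ
    refine AddSubgroup.closure_mono ?_
    rintro x ⟨g, h, hh, rfl⟩
    exact ⟨g, h, hJ hh, rfl⟩
  have hIdl : ∀ x ∈ Idl ρ E, ∃ J : Finset Γ, x ∈ M J := by
    intro x hx
    unfold Idl at hx
    induction hx using AddSubgroup.closure_induction with
    | mem x hx =>
      obtain ⟨g, h, rfl⟩ := hx
      refine ⟨{h}, AddSubgroup.subset_closure ⟨g * h, h, by simp, ?_⟩⟩
      simp only [e, map_mul]
      rw [show ρ g * ρ h * (ρ h⁻¹ * E * ρ h) = ρ g * (ρ h * ρ h⁻¹) * E * ρ h by noncomm_ring,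
        ← map_mul ρ h, mul_inv_cancel]
      simp
    | zero => exact ⟨∅, AddSubgroup.zero_mem _⟩
    | add x y _ _ hx hy =>
      obtain ⟨J, hJ⟩ := hx
      obtain ⟨J', hJ'⟩ := hy
      exact ⟨J ∪ J', AddSubgroup.add_mem _ (hMmono _ _ Finset.subset_union_left hJ)
        (hMmono _ _ Finset.subset_union_right hJ')⟩
    | neg x _ hx =>
      obtain ⟨J, hJ⟩ := hx
      exact ⟨J, AddSubgroup.neg_mem _ hJ⟩
  have hMl : ∀ J, ∀ x ∈ M J, ∀ g, ρ g * x ∈ M J := by
    intro J x hx g
    induction hx using AddSubgroup.closure_induction with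
    | mem x hx =>
      obtain ⟨g', h, hh, rfl⟩ := hx
      exact AddSubgroup.subset_closure ⟨g * g', h, hh, by simp [mul_assoc]⟩
    | zero => simp
    | add x y _ _ hx hy => rw [mul_add]; exact AddSubgroup.add_mem _ hx hy
    | neg x _ hx => rw [mul_neg]; exact AddSubgroup.neg_mem _ hx
  obtain ⟨J, hJ⟩ : ∃ J : Finset Γ, ∀ x ∈ D ρ n, x ∈ M J := by
    have h3 : ∀ l : List Γ, ∃ J : Finset Γ, l.length = n → dp ρ l ∈ M J := by
      intro l
      by_cases hl : l.length = n
      · obtain ⟨J, hJ⟩ := hIdl _ (hn l hl)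
        exact ⟨J, fun _ => hJ⟩
      · exact ⟨∅, fun h => absurd h hl⟩
    choose Jf hJf using h3
    refine ⟨(finite_lists S n).toFinset.biUnion Jf, fun x hx => ?_⟩
    have h4 := D_le ρ (S : Set Γ) hS n hx
    clear hx
    induction h4 using AddSubgroup.closure_induction with
    | mem x hx =>
      obtain ⟨g, l, hlS, hl, rfl⟩ := hx
      refine hMl _ _ (hMmono (Jf l) _ ?_ (hJf l hl)) g
      exact Finset.subset_biUnion_of_mem Jf (by simp only [Set.Finite.mem_toFinset]; exact ⟨hlS, hl⟩)
    | zero => exact AddSubgroup.zero_mem _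
    | add x y _ _ hx hy => exact AddSubgroup.add_mem _ hx hy
    | neg x _ hx => exact AddSubgroup.neg_mem _ hx
  let N : ℕ → AddSubgroup A := fun m =>
    AddSubgroup.closure {x | ∃ (g : Γ) (hs : List Γ), (∀ h ∈ hs, h ∈ J) ∧ hs.length = m ∧
      x = ρ g * (hs.map e).prod}
  have hstep : ∀ m, ∀ x ∈ D ρ n, ∀ y ∈ N m, x * y ∈ N (m + 1) := by
    intro m x hx y hy
    induction hy using AddSubgroup.closure_induction with
    | mem y hy =>
      obtain ⟨g, hs, hhs, hlen, rfl⟩ := hy
      have h5 := hJ _ (D_mul_right ρ n hx g)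
      rw [← mul_assoc]
      generalize x * ρ g = z at h5
      induction h5 using AddSubgroup.closure_induction with
      | mem z hz =>
        obtain ⟨g', h, hh, rfl⟩ := hz
        refine AddSubgroup.subset_closure ⟨g', h :: hs, ?_, by simp [hlen], by simp [mul_assoc]⟩
        intro k hk
        rcases List.mem_cons.1 hk with rfl | hk
        · exact hh
        · exact hhs k hk
      | zero => simp
      | add x y _ _ hx hy => rw [add_mul]; exact AddSubgroup.add_mem _ hx hy
      | neg x _ hx => rw [neg_mul]; exact AddSubgroup.neg_mem _ hx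
    | zero => simp
    | add x y _ _ hx hy => rw [mul_add]; exact AddSubgroup.add_mem _ hx hy
    | neg x _ hx => rw [mul_neg]; exact AddSubgroup.neg_mem _ hx
  have hpow : ∀ m, ∀ l : List Γ, l.length = m * n → dp ρ l ∈ N m := by
    intro m
    induction m with
    | zero =>
      intro l hl
      obtain rfl := List.eq_nil_of_length_eq_zero (by simpa using hl)
      exact AddSubgroup.subset_closure ⟨1, [], by simp, rfl, by simp⟩
    | succ m ih =>
      intro l hl
      rw [← List.take_append_drop n l, dp_append]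
      have hl1 : (l.take n).length = n := by
        rw [List.length_take, hl]
        have : n ≤ (m + 1) * n := Nat.le_mul_of_pos_left n (by omega)
        omega
      have hl2 : (l.drop n).length = m * n := by
        rw [List.length_drop, hl, Nat.add_mul]; omega
      refine hstep m _ ?_ _ (ih _ hl2)
      have := dp_mem_D ρ (l.take n)
      rwa [hl1] at this
  -- a product of more than `card J` conjugates of `E` vanishes
  have hBl : ∀ l : List Γ, l ≠ [] → (l.map e).prod ∈ B := by
    intro l
    induction l with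
    | nil => intro h; exact absurd rfl h
    | cons h t ih =>
      intro _
      have he : e h ∈ B := by
        have := hB h⁻¹ E hE
        rwa [inv_inv] at this
      rcases eq_or_ne t [] with rfl | ht
      · simpa using he
      · rw [List.map_cons, List.prod_cons]
        exact hBm _ he _ (ih ht)
  have hinv : ∀ h : Γ, ρ h * ρ h⁻¹ = 1 := fun h => by rw [← map_mul, mul_inv_cancel, map_one]
  have hee : ∀ (h : Γ) (b : List Γ), e h * (b.map e).prod * e h = 0 := by
    intro h b
    have : e h * (b.map e).prod * e h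
        = ρ h⁻¹ * (E * (ρ h * (b.map e).prod * ρ h⁻¹) * E) * ρ h := by
      simp only [e]; noncomm_ring
    rw [this]
    rcases eq_or_ne b [] with rfl | hb
    · simp only [List.map_nil, List.prod_nil, mul_one, hinv, h1, mul_zero, zero_mul]
    · rw [h2 _ (hB h _ (hBl b hb))]; simp
  refine hN ⟨(J.card + 1) * n, fun l hl => ?_⟩
  have h6 := hpow (J.card + 1) l hl
  have h7 : N (J.card + 1) ≤ ⊥ := by
    refine (AddSubgroup.closure_le _).2 ?_
    rintro x ⟨g, hs, hhs, hlen, rfl⟩
    have hnd : ¬ hs.Nodup := by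
      intro hnd
      have h8 := List.toFinset_card_of_nodup hnd
      have h9 : hs.toFinset ⊆ J := fun k hk => hhs k (List.mem_toFinset.1 hk)
      have := Finset.card_le_card h9
      omega
    obtain ⟨a, h, b, c, rfl⟩ := exists_split_of_not_nodup hs hnd
    have : ((a ++ h :: (b ++ h :: c)).map e).prod
        = (a.map e).prod * (e h * (b.map e).prod * e h) * (c.map e).prod := by
      simp only [List.map_append, List.map_cons, List.prod_append, List.prod_cons, mul_assoc]
    rw [this, hee]
    simp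
  simpa using h7 h6

end Pool.Agent.Work.MP_d7201b_al.LN
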